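import Mathlib

namespace Pool.Agent.H.MP_322e80_ag

open MvPolynomial TensorProduct

/-- `v ↦ t v` -/
noncomputable def psi (δ B : Type) [CommRing B] :
    MvPolynomial δ B →ₐ[B] PowerSeries (MvPolynomial δ B) :=
  aeval fun j => PowerSeries.X * PowerSeries.C (X j)

theorem psi_monomial {δ B : Type} [CommRing B] (m : δ →₀ ℕ) (b : B) :
    psi δ B (monomial m b) = PowerSeries.X ^ m.degree * PowerSeries.C (monomial m b) := by
  rw [psi, aeval_monomial, monomial_eq, map_mul, map_finsuppProd]
  simp only [mul_pow, Finsupp.prod_mul, map_pow]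
  rw [Finsupp.prod, Finset.prod_pow_eq_pow_sum, Finsupp.degree_apply]
  have : algebraMap B (PowerSeries (MvPolynomial δ B)) b = PowerSeries.C (C b) := by
    rw [PowerSeries.algebraMap_apply]; rfl
  rw [this]; ring

theorem psi_coeff {δ B : Type} [CommRing B] (m : δ →₀ ℕ) (f : MvPolynomial δ B) :
    coeff m (PowerSeries.coeff m.degree (psi δ B f)) = coeff m f := by
  classical
  induction f using MvPolynomial.induction_on' with
  | monomial u a =>
    rw [psi_monomial, mul_comm, PowerSeries.coeff_C_mul, PowerSeries.coeff_X_pow]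
    by_cases h : u = m
    · simp [h]
    · split_ifs <;> simp [coeff_monomial, h]
  | add p q hp hq => simp [hp, hq]

theorem psi_inj {δ B : Type} [CommRing B] : Function.Injective (psi δ B) := fun f g h => by
  ext m; rw [← psi_coeff, h, psi_coeff]

theorem dom_aux {R : Type} [CommRing R] (T : R) (hT : ∀ x, T * x = 0 → x = 0)
    (hsep : ∀ x, (∀ n, T ^ n ∣ x) → x = 0) (hp : (Ideal.span {T}).IsPrime) : IsDomain R := by
  classical
  have ex : ∀ a : R, a ≠ 0 → ∃ m a', a = T ^ m * a' ∧ ¬ T ∣ a' := by
    intro a ha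
    have h : ∃ n, ¬ T ^ n ∣ a := by
      by_contra h
      push Not at h
      exact ha (hsep a h)
    have h0 : Nat.find h ≠ 0 := fun e => Nat.find_spec h (by rw [e]; simp)
    obtain ⟨m, hm⟩ := Nat.exists_eq_succ_of_ne_zero h0
    obtain ⟨a', e⟩ := not_not.mp (Nat.find_min h (m := m) (by omega))
    refine ⟨m, a', e, fun ⟨c, hc⟩ => Nat.find_spec h ⟨c, ?_⟩⟩
    rw [hm, e, hc, pow_succ, mul_assoc]
  have hTn : ∀ n x, T ^ n * x = 0 → x = 0 := by
    intro n
    induction n with
    | zero => simp
    | succ n ih => exact fun x h => ih x (hT _ (by rw [← h]; ring))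
  have : Nontrivial R := by
    by_contra h
    rw [not_nontrivial_iff_subsingleton] at h
    exact hp.ne_top (Subsingleton.elim _ _)
  have : NoZeroDivisors R := ⟨fun {a b} h => by
    by_contra hn
    push Not at hn
    obtain ⟨m, a', ea, ha⟩ := ex a hn.1
    obtain ⟨n, b', eb, hb⟩ := ex b hn.2
    have : a' * b' = 0 := hTn (m + n) _ (by rw [← h, ea, eb]; ring)
    rcases hp.mem_or_mem (x := a') (y := b') (by rw [this]; exact zero_mem _) with h | h
    · exact ha (Ideal.mem_span_singleton.mp h)
    · exact hb (Ideal.mem_span_singleton.mp h)⟩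
  exact NoZeroDivisors.to_isDomain R

theorem dom_tensor {E L S P : Type} [Field E] [Field L] [Algebra E L] [CommRing S] [Algebra E S]
    [CommRing P] [Algebra E P] (t : S) (ht : ∀ x, t * x = 0 → x = 0)
    (hsep : ∀ x, (∀ n, t ^ n ∣ x) → x = 0) (f : S →ₐ[E] P) (hf : Function.Surjective f)
    (hk : RingHom.ker f = Ideal.span {t}) [IsDomain (L ⊗[E] P)] : IsDomain (L ⊗[E] S) := by
  have : IsDomain (P ⊗[E] L) := (Algebra.TensorProduct.comm E P L).toMulEquiv.isDomain _
  suffices IsDomain (S ⊗[E] L) from (Algebra.TensorProduct.comm E L S).toMulEquiv.isDomain _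
  let b := Algebra.TensorProduct.basis S (Module.Free.chooseBasis E L)
  have hm : ∀ (s : S) (x : S ⊗[E] L), (s ⊗ₜ[E] (1 : L)) * x = s • x := fun s x =>
    (Algebra.smul_def s x).symm
  refine dom_aux (t ⊗ₜ 1) (fun x h => ?_) (fun x h => ?_) ?_
  · rw [hm] at h
    refine b.repr.injective (Finsupp.ext fun i => ht _ ?_)
    simpa using congrArg (fun y => b.repr y i) h
  · refine b.repr.injective (Finsupp.ext fun i => hsep _ fun n => ?_)
    obtain ⟨c, hc⟩ := h n
    rw [Algebra.TensorProduct.tmul_pow, one_pow, hm] at hc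
    exact ⟨b.repr c i, by rw [hc]; simp⟩
  · have := Algebra.TensorProduct.rTensor_ker (R := E) (S := E) (C := L) f hf
    rw [hk, Ideal.map_span, Set.image_singleton] at this
    have h2 := RingHom.ker_isPrime (Algebra.TensorProduct.map f (AlgHom.id E L))
    rw [this] at h2
    exact h2

/-- power series with a twisted algebra structure -/
def Tw {E S : Type} [CommRing E] [CommRing S] (_ : E →+* S) : Type := S

instance {E S : Type} [CommRing E] [CommRing S] (θ : E →+* S) : CommRing (Tw θ) := ‹CommRing S›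

instance {E S : Type} [CommRing E] [CommRing S] (θ : E →+* S) : Algebra E (Tw θ) :=
  RingHom.toAlgebra (S := Tw θ) θ

theorem dom_of {E L A δ : Type} [Field E] [Field L] [Algebra E L] [CommRing A] [Algebra E A]
    (φ : A →+* PowerSeries (MvPolynomial δ E)) (hφ : Function.Injective φ)
    (h : ∀ e, PowerSeries.constantCoeff (φ (algebraMap E A e)) = C e) : IsDomain (L ⊗[E] A) := by
  let θ := φ.comp (algebraMap E A)
  let f : Tw θ →ₐ[E] MvPolynomial δ E :=
    { toRingHom := PowerSeries.constantCoeff (R := MvPolynomial δ E), commutes' := h }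
  let g : A →ₐ[E] Tw θ := { toRingHom := φ, commutes' := fun _ => rfl }
  have : IsDomain (L ⊗[E] MvPolynomial δ E) :=
    (algebraTensorAlgEquiv E L).toMulEquiv.isDomain _
  have : IsDomain (L ⊗[E] Tw θ) := by
    refine dom_tensor (S := Tw θ) (PowerSeries.X : PowerSeries (MvPolynomial δ E)) ?_ ?_ f ?_ ?_
    · exact fun x hx => (mul_eq_zero (M₀ := PowerSeries (MvPolynomial δ E)).mp hx).resolve_left
        PowerSeries.X_ne_zero
    · exact fun x hx => PowerSeries.ext (R := MvPolynomial δ E) fun n =>
        PowerSeries.X_pow_dvd_iff.mp (hx (n + 1)) n (Nat.lt_succ_self n)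
    · exact fun p => ⟨(PowerSeries.C p : PowerSeries (MvPolynomial δ E)),
        PowerSeries.constantCoeff_C p⟩
    · ext x
      rw [Ideal.mem_span_singleton]
      exact (PowerSeries.X_dvd_iff (φ := x)).symm
  exact Function.Injective.isDomain (Algebra.TensorProduct.map (AlgHom.id E L) g).toRingHom
    (Module.Flat.lTensor_preserves_injective_linearMap (M := L) g.toLinearMap hφ)

theorem dim_eq {A B : Type} [CommRing A] [CommRing B] [Algebra A B] [Algebra.IsIntegral A B]
    [FaithfulSMul A B] [Nontrivial A] : ringKrullDim B = ringKrullDim A := by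
  refine le_antisymm (Order.krullDim_le_of_strictMono (PrimeSpectrum.comap (algebraMap A B))
    fun _ _ h => Ideal.IsIntegral.comap_lt_comap h) (iSup_le fun l => ?_)
  obtain ⟨⟨P, _, _⟩⟩ := Ideal.nonempty_primesOver (S := B) l.head.asIdeal
  obtain ⟨L, hL, -⟩ := Ideal.exists_ltSeries_of_hasGoingUp l P
  rw [← hL]
  exact Order.LTSeries.length_le_krullDim L

theorem dim_tensor {E L A : Type} [Field E] [Field L] [Algebra E L] [CommRing A] [Algebra E A]
    [IsDomain A] [Algebra.FiniteType E A] [IsDomain (L ⊗[E] A)] (d : ℕ)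
    (h : Algebra.trdeg E A = d) :
    ringKrullDim (L ⊗[E] A) = d ∧ Algebra.trdeg L (L ⊗[E] A) = d := by
  have key : ∀ {F B : Type} [Field F] [CommRing B] [Algebra F B] [IsDomain B] {s : ℕ}
      (g : MvPolynomial (Fin s) F →ₐ[F] B), Function.Injective g → g.Finite →
      ringKrullDim B = s ∧ Algebra.trdeg F B = s := by
    intro F B _ _ _ _ s g h1 h2
    let := g.toRingHom.toAlgebra
    have : IsScalarTower F (MvPolynomial (Fin s) F) B :=
      IsScalarTower.of_algebraMap_eq' g.comp_algebraMap.symm
    have : Module.Finite (MvPolynomial (Fin s) F) B := h2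
    have : FaithfulSMul (MvPolynomial (Fin s) F) B :=
      (faithfulSMul_iff_algebraMap_injective _ _).mpr h1
    constructor
    · rw [dim_eq (A := MvPolynomial (Fin s) F)]
      simp [MvPolynomial.ringKrullDim_of_isNoetherianRing, ringKrullDim_eq_zero_of_field]
    · rw [← trdeg_add_eq F (MvPolynomial (Fin s) F), trdeg_eq_zero (A := B), add_zero,
        MvPolynomial.trdeg_of_isDomain]
      simp
  obtain ⟨s, g, h1, h2⟩ := exists_finite_inj_algHom_of_fg E A
  have e : s = d := by exact_mod_cast (key g h1 h2).2.symm.trans h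
  subst e
  refine key ((Algebra.TensorProduct.map (AlgHom.id L L) g).comp
    (algebraTensorAlgEquiv E L).symm.toAlgHom) ?_ ?_
  · exact (Module.Flat.lTensor_preserves_injective_linearMap (M := L) g.toLinearMap h1).comp
      (algebraTensorAlgEquiv E L).symm.injective
  · exact (RingHom.Finite.tensorProductMap (f := AlgHom.id E L) (RingEquiv.refl _).finite h2).comp
      (algebraTensorAlgEquiv E L).symm.toRingEquiv.finite

end Pool.Agent.H.MP_322e80_ag
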