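import Pool.Agent.H.MP_322e80_ag.A

namespace Pool.Agent.H.MP_322e80_ag

open MvPolynomial TensorProduct

/-- the data are realised over `L`, in coordinates -/
def Good (L : Type) [Field L] {G I δ : Type} [Group G] [Fintype δ] (H : I → Subgroup G)
    (ρ : ∀ i, H i → Matrix δ δ L) : Prop :=
  ∃ (A : Type) (_ : CommRing A) (_ : IsDomain A) (_ : Algebra L A) (_ : Algebra.FiniteType L A)
    (σ : G →* (A ≃ₐ[L] A)) (x : I → (A →ₐ[L] L)) (v : I → δ → A),
    ringKrullDim A = Fintype.card δ ∧ Algebra.trdeg L A = Fintype.card δ ∧ Function.Injective x ∧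
    (∀ i (h : H i) a, x i (σ h a) = x i a) ∧
    (∀ i (h : H i) l, σ (h : G)⁻¹ (v i l) = ∑ l', ρ i h l l' • v i l') ∧
    (∀ i (D : A →ₗ[L] L), (∀ a b, D (a * b) = x i a * D b + x i b * D a) →
      (∀ l, D (v i l) = 0) → D = 0) ∧
    ∀ i (ξ : δ → L), ∃ D : A →ₗ[L] L, (∀ a b, D (a * b) = x i a * D b + x i b * D a) ∧
      ∀ l, D (v i l) = ξ l

theorem baseChange {E L A G I δ : Type} [Field E] [Field L] [Algebra E L] [CommRing A]
    [Algebra E A] [IsDomain A] [Algebra.FiniteType E A] [Group G] [Fintype δ] [Nonempty I]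
    (H : I → Subgroup G) (ρ : ∀ i, H i → Matrix δ δ E) (σ : G →* (A ≃ₐ[E] A))
    (x : I → (A →ₐ[E] E)) (v : I → δ → A) (φ : I → A →+* PowerSeries (MvPolynomial δ E))
    (hφ : ∀ i, Function.Injective (φ i))
    (h0 : ∀ i f, PowerSeries.constantCoeff (φ i f) = C (x i f))
    (h1 : ∀ i e, PowerSeries.coeff 1 (φ i (algebraMap E A e)) = 0)
    (hv : ∀ i l, φ i (v i l) = PowerSeries.X * PowerSeries.C (X l))
    (hd : Algebra.trdeg E A = Fintype.card δ) (hx : Function.Injective x)
    (hfix : ∀ i (h : H i) a, x i (σ h a) = x i a)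
    (hρ : ∀ i (h : H i) l, σ (h : G)⁻¹ (v i l) = ∑ l', ρ i h l l' • v i l')
    (hT : ∀ i (D : A →ₗ[E] L), (∀ a b, D (a * b) = x i a • D b + x i b • D a) →
      (∀ l, D (v i l) = 0) → D = 0) :
    Good L H fun i h => (ρ i h).map (algebraMap E L) := by
  obtain ⟨i₀⟩ := ‹Nonempty I›
  have dom : IsDomain (L ⊗[E] A) := dom_of (φ i₀) (hφ i₀) fun e => by simp [h0]
  let σ' : G →* (L ⊗[E] A ≃ₐ[L] L ⊗[E] A) :=
    { toFun g := Algebra.TensorProduct.congr AlgEquiv.refl (σ g)
      map_one' := by
        refine AlgEquiv.ext fun a => ?_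
        induction a with
        | zero => simp
        | tmul c a => simp
        | add a b ha hb => simp only [map_add, ha, hb]
      map_mul' g g' := by
        refine AlgEquiv.ext fun a => ?_
        induction a with
        | zero => simp
        | tmul c a => simp
        | add a b ha hb => simp only [map_add, ha, hb] }
  have hσ' : ∀ g c a, σ' g (c ⊗ₜ a) = c ⊗ₜ σ g a := fun g c a => rfl
  let x' : I → (L ⊗[E] A →ₐ[L] L) := fun i =>
    Algebra.TensorProduct.lift (AlgHom.id L L) ((Algebra.ofId E L).comp (x i))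
      fun _ _ => Commute.all _ _
  have hx' : ∀ i c a, x' i (c ⊗ₜ a) = x i a • c := fun i c a => by
    simp [x', Algebra.smul_def, mul_comm]
  refine ⟨L ⊗[E] A, inferInstance, dom, inferInstance, inferInstance, σ', x', fun i l => 1 ⊗ₜ v i l,
    (dim_tensor _ hd).1, (dim_tensor _ hd).2, fun i j e => hx ?_, fun i h a => ?_, fun i h l => ?_,
    fun i D hD hDv => ?_, fun i ξ => ?_⟩
  · ext a
    have := congrArg (fun y => y (1 ⊗ₜ a)) e
    simp only [hx', ← Algebra.algebraMap_eq_smul_one] at this
    exact (algebraMap E L).injective this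
  · induction a with
    | zero => simp
    | tmul c a => rw [hσ', hx', hx', hfix]
    | add a b ha hb => simp only [map_add, ha, hb]
  · rw [hσ', hρ, tmul_sum]
    refine Finset.sum_congr rfl fun l' _ => ?_
    rw [tmul_smul]
    exact (algebraMap_smul L _ _).symm
  · have := hT i ((D.restrictScalars E).comp
      (Algebra.TensorProduct.includeRight (R := E) (A := L)).toLinearMap) (fun a b => by
        have := hD (1 ⊗ₜ a) (1 ⊗ₜ b)
        rw [hx', hx', Algebra.TensorProduct.tmul_mul_tmul, one_mul, smul_one_mul,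
          smul_one_mul] at this
        exact this) hDv
    ext a
    exact congrArg (fun y => y a) this
  · have lei : ∀ a b, aeval ξ (PowerSeries.coeff 1 (φ i (a * b))) =
        x i a • aeval ξ (PowerSeries.coeff 1 (φ i b)) +
          x i b • aeval ξ (PowerSeries.coeff 1 (φ i a)) := by
      intro a b
      rw [map_mul, PowerSeries.coeff_mul, Finset.Nat.antidiagonal_succ]
      simp [h0, Algebra.smul_def, mul_comm]
    let D₀ : A →ₗ[E] L :=
      { toFun a := aeval ξ (PowerSeries.coeff 1 (φ i a))
        map_add' a b := by simp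
        map_smul' e a := by rw [Algebra.smul_def, lei, h1]; simp }
    have hD₀ : ∀ a b, D₀ (a * b) = x i a • D₀ b + x i b • D₀ a := lei
    refine ⟨D₀.liftBaseChange L, fun a b => ?_, fun l => ?_⟩
    · induction a with
      | zero => simp
      | add a a' ha ha' => simp only [add_mul, map_add, ha, ha']; ring
      | tmul c a =>
        induction b with
        | zero => simp
        | add b b' hb hb' => simp only [mul_add, map_add, hb, hb']; ring
        | tmul c' b =>
          simp only [Algebra.TensorProduct.tmul_mul_tmul, LinearMap.liftBaseChange_tmul, hD₀, hx',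
            Algebra.smul_def, Algebra.algebraMap_self, RingHom.id_apply]
          ring
    · simp [D₀, hv]

end Pool.Agent.H.MP_322e80_ag
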