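import Pool.Agent.H.MP_322e80_ag.B

namespace Pool.Agent.H.MP_322e80_ag

set_option linter.unusedSectionVars false

open MvPolynomial Matrix

section mat
variable {n δ T T' : Type} [Fintype n] [DecidableEq n] [Fintype δ] [DecidableEq δ] [CommRing T]
  [CommRing T']

/-- matrix relations -/
structure Rel (ι : Matrix n δ T) (π : Matrix δ n T) (s M : Matrix n n T) (Δ : T) : Prop where
  pi : π * ι = 1
  m1 : π * M = 0
  m2 : s * M = Δ • (1 - ι * π)
  m3 : M * s = Δ • (1 - ι * π)
  m4 : M * ι = 0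
  m5 : π * s * (1 - ι * π) = 0

theorem Rel.mk' {ι : Matrix n δ T} {π : Matrix δ n T} {s : Matrix n n T} (h : π * ι = 1)
    (hs : s * (ι * π) = ι * π * s) :
    Rel ι π s ((1 - ι * π) * adjugate s * (1 - ι * π)) s.det := by
  have e1 : π * (1 - ι * π) = 0 := by rw [Matrix.mul_sub, ← Matrix.mul_assoc, h]; simp
  have e2 : (1 - ι * π) * ι = 0 := by rw [Matrix.sub_mul, Matrix.mul_assoc, h]; simp
  have e3 : s * (1 - ι * π) = (1 - ι * π) * s := by rw [mul_sub, sub_mul, hs]; simp
  have e4 : (1 - ι * π) * (1 - ι * π) = 1 - ι * π := by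
    rw [mul_sub (1 - ι * π), ← Matrix.mul_assoc, e2]; simp
  refine ⟨h, ?_, ?_, ?_, ?_, ?_⟩
  · rw [← Matrix.mul_assoc, ← Matrix.mul_assoc, e1]; simp
  · rw [← mul_assoc, ← mul_assoc, e3, mul_assoc _ s, mul_adjugate, mul_smul_comm, mul_one,
      smul_mul_assoc, e4]
  · rw [mul_assoc, ← e3, ← mul_assoc, mul_assoc _ _ s, adjugate_mul, mul_smul_comm, mul_one,
      smul_mul_assoc, e4]
  · rw [Matrix.mul_assoc, e2]; simp
  · rw [Matrix.mul_assoc, e3, ← Matrix.mul_assoc, e1]; simp

variable {ι : Matrix n δ T} {π : Matrix δ n T} {s M : Matrix n n T} {Δ : T}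

theorem Rel.map (h : Rel ι π s M Δ) (f : T →+* T') :
    Rel (ι.map f) (π.map f) (s.map f) (M.map f) (f Δ) := by
  have e : (1 - ι * π).map f = 1 - ι.map f * π.map f := by
    rw [Matrix.map_sub _ (map_sub f), Matrix.map_mul, Matrix.map_one _ (map_zero f) (map_one f)]
  have e' : (Δ • (1 - ι * π)).map f = f Δ • (1 - ι.map f * π.map f) := by
    rw [← e]; ext; simp
  refine ⟨?_, ?_, ?_, ?_, ?_, ?_⟩
  · rw [← Matrix.map_mul, h.pi, Matrix.map_one _ (map_zero f) (map_one f)]
  · rw [← Matrix.map_mul, h.m1, Matrix.map_zero _ (map_zero f)]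
  · rw [← Matrix.map_mul, h.m2, e']
  · rw [← Matrix.map_mul, h.m3, e']
  · rw [← Matrix.map_mul, h.m4, Matrix.map_zero _ (map_zero f)]
  · rw [← e, ← Matrix.map_mul, ← Matrix.map_mul, h.m5, Matrix.map_zero _ (map_zero f)]

theorem Rel.c1 (h : Rel ι π s M Δ) {z : n → T} (hz : π *ᵥ z = 0) (y : δ → T) :
    M *ᵥ (s *ᵥ z + ι *ᵥ y) = Δ • z ∧ π *ᵥ (s *ᵥ z + ι *ᵥ y) = y := by
  have e : (1 - ι * π) *ᵥ z = z := by rw [sub_mulVec, ← mulVec_mulVec, hz]; simp
  constructor
  · rw [mulVec_add, mulVec_mulVec, mulVec_mulVec, h.m3, h.m4, smul_mulVec, e]; simp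
  · rw [mulVec_add, ← e, mulVec_mulVec, mulVec_mulVec, mulVec_mulVec, h.m5, h.pi]; simp

theorem Rel.c2 (h : Rel ι π s M Δ) (v : δ → T) (a : n → T) (c : T) :
    π *ᵥ (ι *ᵥ v + c • M *ᵥ a) = v ∧
      s *ᵥ (c • M *ᵥ a) + ι *ᵥ ((c * Δ) • π *ᵥ a) = (c * Δ) • a := by
  constructor
  · rw [mulVec_add, mulVec_smul, mulVec_mulVec, mulVec_mulVec, h.pi, h.m1]; simp
  · rw [mulVec_smul, mulVec_smul, mulVec_mulVec, mulVec_mulVec, h.m2, smul_mulVec, sub_mulVec,
      smul_smul, ← smul_add]; simp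

end mat

variable {k G I δ : Type} [Field k] [Group G] [Fintype G] [DecidableEq G]
  [Fintype I] [DecidableEq I] [Fintype δ] [DecidableEq δ]

/-- coordinates of the big representation -/
abbrev NN (G I δ : Type) : Type := G × (δ ⊕ I)

/-- all coordinates -/
abbrev KK (G I δ : Type) : Type := NN G I δ ⊕ δ

/-- action on coordinates -/
def act (g : G) : KK G I δ → KK G I δ := Sum.map (fun c => (g * c.1, c.2)) id

open Classical in
/-- the centre -/
noncomputable def pt (k : Type) [Field k] (H : Subgroup G) (i : I) : KK G I δ → k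
  | .inl (g, .inr i') => if i' = i ∧ g ∈ H then 1 else 0
  | _ => 0

/-- the birational modification -/
noncomputable def phi0 (p : KK G I δ → k) (lin : KK G I δ → MvPolynomial δ k)
    (c : MvPolynomial δ k) (M : KK G I δ → NN G I δ → MvPolynomial δ k) :
    MvPolynomial (KK G I δ) k →ₐ[k] MvPolynomial δ (MvPolynomial (NN G I δ) k) :=
  aeval fun κ => C (C (p κ)) + map C (lin κ) + map C c * ∑ c', map C (M κ c') * C (X c')

/-- local data -/
structure Loc (H : Subgroup G) (ρ : H →* Matrix δ δ k) (i : I) where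
  v : δ → MvPolynomial (KK G I δ) k
  Δ : MvPolynomial δ k
  ν : MvPolynomial δ k
  cc : MvPolynomial δ k
  lin : KK G I δ → MvPolynomial δ k
  M : KK G I δ → NN G I δ → MvPolynomial δ k
  B : NN G I δ → MvPolynomial (KK G I δ) k
  hν : constantCoeff ν = 0
  hγ : Δ * ν * cc ≠ 0
  hlin : ∀ κ, constantCoeff (lin κ) = 0
  hlinu : ∀ g, lin (.inl (g, .inr i)) = 0
  r1 : ∀ κ, aeval v Δ * (X κ - C (pt k H i κ) - aeval v (lin κ)) = ∑ c, aeval v (M κ c) * B c
  iγ : ∀ h : H, rename (act (h : G)) (aeval v (Δ * ν * cc)) = aeval v (Δ * ν * cc)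
  iB : ∀ (h : H) c, rename (act (h : G)) (B c) = B c
  iv : ∀ (h : H) l, rename (act (h : G)⁻¹) (v l) = ∑ l', ρ h l l' • v l'
  v0 : ∀ y : KK G I δ → k, (∀ g l, y (.inl (g, .inl l)) = 0) → ∀ l, eval y (v l) = 0
  fv : ∀ l, phi0 (pt k H i) lin (Δ * ν * cc * ν * cc) M (v l) = X l
  fB : ∀ c, phi0 (pt k H i) lin (Δ * ν * cc * ν * cc) M (B c) = map C (Δ * ν * cc) ^ 2 * C (X c)

theorem exists_beta [Infinite k] [Nonempty δ] {H : Type} [Group H] [Fintype H]
    (ρ : H →* Matrix δ δ k) (hρ : Function.Injective ρ) :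
    ∃ (v₀ : δ → k) (β : MvPolynomial δ k), eval v₀ β ≠ 0 ∧
      ∀ h : H, h ≠ 1 → eval (ρ h *ᵥ v₀) β = 0 := by
  classical
  have := Subspace.biUnion_ne_univ_of_top_notMem (k := k) (E := δ → k)
    (s := (Finset.univ.erase (1 : H)).image fun h => LinearMap.ker (toLin' (ρ h - 1))) (by
      simp only [Finset.mem_image, not_exists, not_and, LinearMap.ker_eq_top]
      intro h hh e
      exact (Finset.ne_of_mem_erase hh) (hρ (by
        rw [map_one]; exact sub_eq_zero.mp (toLin'.map_eq_zero_iff.mp e))))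
  obtain ⟨v₀, hv⟩ := (Set.ne_univ_iff_exists_notMem _).mp this
  have h2 : ∀ h : H, ∃ l, h ≠ 1 → v₀ l - (ρ h *ᵥ v₀) l ≠ 0 := by
    intro h
    by_contra hn
    push Not at hn
    refine hv (Set.mem_biUnion (Finset.mem_image_of_mem _ (Finset.mem_erase.mpr
      ⟨(hn (Classical.arbitrary δ)).1, Finset.mem_univ h⟩)) ?_)
    rw [SetLike.mem_coe, LinearMap.mem_ker, toLin'_apply, sub_mulVec, one_mulVec]
    ext l
    rw [Pi.sub_apply, ← neg_sub, (hn l).2, neg_zero, Pi.zero_apply]
  choose l hl using h2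
  refine ⟨v₀, ∏ h ∈ Finset.univ.erase (1 : H), (X (l h) - C ((ρ h *ᵥ v₀) (l h))), ?_, fun h hh => ?_⟩
  · rw [map_prod]
    exact Finset.prod_ne_zero_iff.mpr fun h hh => by simpa using hl h (Finset.ne_of_mem_erase hh)
  · rw [map_prod]
    exact Finset.prod_eq_zero (Finset.mem_erase.mpr ⟨hh, Finset.mem_univ h⟩) (by simp)

section mats
variable {H : Subgroup G} (ρ : H →* Matrix δ δ k)

open Classical in
/-- the embedding -/
noncomputable def io : Matrix (NN G I δ) δ k := of fun c l =>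
  match c with
  | (x, .inl j) => if h : x ∈ H then ρ ⟨x, h⟩⁻¹ j l else 0
  | (_, .inr _) => 0

open Classical in
/-- the projection -/
noncomputable def pr : Matrix δ (NN G I δ) k := of fun l c =>
  match c with
  | (x, .inl j) => if h : x ∈ H then (Nat.card H : k)⁻¹ * ρ ⟨x, h⟩ l j else 0
  | (_, .inr _) => 0

/-- permutation matrix -/
def pm (k : Type) [Field k] (g : G) : Matrix (NN G I δ) (NN G I δ) k :=
  of fun c c' => if c' = (g * c.1, c.2) then 1 else 0

theorem sum_sub {T : Type} [AddCommMonoid T] [Fintype H] [DecidablePred (· ∈ H)] (f : H → T) :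
    ∑ x : G, (if h : x ∈ H then f ⟨x, h⟩ else 0) = ∑ x : H, f x := by
  rw [← Finset.sum_filter_of_ne (p := (· ∈ H)) (fun x _ h => by by_contra hx; simp [hx] at h),
    Finset.sum_subtype (p := (· ∈ H)) (F := ‹Fintype H›) _ (by simp)]
  simp

theorem pr_io [CharZero k] : pr (I := I) ρ * io (I := I) ρ = 1 := by
  classical
  have : ∀ l l', ∑ x : G, ∑ j, pr (I := I) ρ l (x, .inl j) * io (I := I) ρ (x, .inl j) l' =
     ∑ x : H, (Nat.card H : k)⁻¹ * (1 : Matrix δ δ k) l l' := by
    intro l l'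
    rw [← sum_sub]
    refine Finset.sum_congr rfl fun x _ => ?_
    by_cases h : x ∈ H
    · simp only [pr, io, of_apply, dif_pos h, mul_assoc, ← Finset.mul_sum]
      rw [← mul_apply, ← map_mul, mul_inv_cancel, map_one]
    · simp [pr, io, h]
  ext l l'
  rw [mul_apply, Fintype.sum_prod_type]
  simp only [Fintype.sum_sum_type]
  rw [Finset.sum_add_distrib, this]
  simp [pr]

theorem io_mul (h : H) (c : NN G I δ) (l : δ) :
    io ρ (h * c.1, c.2) l = ∑ l', io ρ c l' * ρ h⁻¹ l' l := by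
  obtain ⟨x, j | j⟩ := c
  · by_cases hx : x ∈ H
    · simp only [io, of_apply, dif_pos hx, dif_pos (H.mul_mem h.2 hx)]
      rw [← mul_apply, ← map_mul, ← _root_.mul_inv_rev]; rfl
    · simp [io, hx, (H.mul_mem_cancel_left h.2).not.mpr hx]
  · simp [io]

theorem pr_mul (h : H) (c : NN G I δ) (l : δ) :
    pr ρ l (h * c.1, c.2) = ∑ l', ρ h l l' * pr ρ l' c := by
  obtain ⟨x, j | j⟩ := c
  · by_cases hx : x ∈ H
    · simp only [pr, of_apply, dif_pos hx, dif_pos (H.mul_mem h.2 hx), mul_left_comm _ (_ : k)⁻¹,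
        ← Finset.mul_sum]
      rw [← mul_apply, ← map_mul]; rfl
    · simp [pr, hx, (H.mul_mem_cancel_left h.2).not.mpr hx]
  · simp [pr]

/-- translation of coordinates -/
def tr (g : G) : NN G I δ ≃ NN G I δ := (Equiv.mulLeft g).prodCongr (Equiv.refl _)

theorem pm_comm (h : H) : pm k (h : G) * (io (I := I) ρ * pr ρ) = io ρ * pr ρ * pm k (h : G) := by
  ext c c'
  obtain ⟨c', rfl⟩ := (tr (h : G)).surjective c'
  have e : ∀ a : NN G I δ, tr (h : G) c' = ((h : G) * a.1, a.2) ↔ c' = a :=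
    fun a => (tr (h : G)).injective.eq_iff
  rw [mul_apply, mul_apply]
  simp only [pm, of_apply, ite_mul, one_mul, zero_mul, Finset.sum_ite_eq', Finset.mem_univ,
    if_true, e, mul_ite, mul_one, mul_zero, Finset.sum_ite_eq]
  have e1 : io ρ * ρ h⁻¹ * (ρ h * pr ρ) = io (I := I) ρ * pr (I := I) ρ := by
    rw [Matrix.mul_assoc, ← Matrix.mul_assoc (ρ h⁻¹), ← map_mul, inv_mul_cancel, map_one,
      Matrix.one_mul]
  refine Eq.trans ?_ (congrFun (congrFun e1 c) c')
  rw [mul_apply, mul_apply]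
  refine Finset.sum_congr rfl fun l _ => ?_
  rw [io_mul, mul_apply, mul_apply]
  exact congrArg _ (pr_mul ρ h c' l)

/-- action on polynomial functions on the small representation -/
noncomputable def ta (h : H) : MvPolynomial δ k →ₐ[k] MvPolynomial δ k :=
  aeval fun l => ∑ l', ρ h⁻¹ l l' • X l'

theorem ta_ta (h h' : H) (f : MvPolynomial δ k) : ta ρ h' (ta ρ h f) = ta ρ (h' * h) f := by
  have : (ta ρ h').comp (ta ρ h) = ta ρ (h' * h) := by
    ext1 l
    simp only [ta, AlgHom.comp_apply, aeval_X, map_sum, map_smul, _root_.mul_inv_rev, map_mul,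
      mul_apply, Finset.sum_smul, Finset.smul_sum, smul_smul]
    exact Finset.sum_comm
  exact congrArg (fun y => y f) this

theorem ta_one (f : MvPolynomial δ k) : ta ρ 1 f = f := by
  have : ta ρ 1 = AlgHom.id k _ := by
    ext1 l
    simp [ta, one_apply]
  rw [this]; rfl

theorem eval_ta (h : H) (y : δ → k) (f : MvPolynomial δ k) :
    eval y (ta ρ h f) = eval (ρ h⁻¹ *ᵥ y) f := by
  have : (aeval y).comp (ta ρ h) = aeval (ρ h⁻¹ *ᵥ y) := by
    ext1 l
    simp [ta, mulVec, dotProduct]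
  exact congrArg (fun y => y f) this

theorem pt_mul (i : I) (h : H) (κ : KK G I δ) : pt k H i (act (h : G) κ) = pt k H i κ := by
  obtain ⟨x, j | j⟩ | l := κ
  · rfl
  · classical exact if_congr (and_congr_right' (H.mul_mem_cancel_left h.2)) rfl rfl
  · rfl

theorem exists_s [CharZero k] [Nonempty δ] [Fintype H] (hρ : Function.Injective ρ) :
    ∃ (β Δ : MvPolynomial δ k) (s M : Matrix (NN G I δ) (NN G I δ) (MvPolynomial δ k)),
      s = ∑ h : H, ta ρ h β • (pm k (h : G)).map C ∧ Δ ≠ 0 ∧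
      Rel ((io ρ).map C) ((pr ρ).map C) s M Δ := by
  obtain ⟨v₀, β, hβ, hβ'⟩ := exists_beta ρ hρ
  obtain ⟨s, hs⟩ : ∃ s : Matrix (NN G I δ) (NN G I δ) (MvPolynomial δ k),
    s = ∑ h : H, ta ρ h β • (pm k (h : G)).map C := ⟨_, rfl⟩
  refine ⟨β, s.det, s, _, hs, fun h => ?_, Rel.mk' ?_ ?_⟩
  · have := congrArg (eval v₀) h
    rw [RingHom.map_det, map_zero] at this
    have e : (eval v₀).mapMatrix s = eval v₀ β • (1 : Matrix _ _ k) := by
      simp only [hs, map_sum]
      rw [Finset.sum_eq_single 1 (fun h _ hh => ?_) (by simp)]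
      · ext c c'
        by_cases e : c = c'
        · simp [ta_one, pm, e]
        · simp [ta_one, pm, e, Ne.symm e]
      · ext c c'
        simp [eval_ta, hβ' _ (inv_ne_one.mpr hh)]
    rw [e] at this
    simp [hβ] at this
  · rw [← Matrix.map_mul, pr_io, Matrix.map_one _ (map_zero _) (map_one _)]
  · rw [hs, Finset.sum_mul, Finset.mul_sum]
    refine Finset.sum_congr rfl fun h _ => ?_
    rw [smul_mul_assoc, mul_smul_comm, ← Matrix.map_mul, ← Matrix.map_mul, ← Matrix.map_mul,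
      pm_comm]

theorem exists_loc [CharZero k] [Nonempty δ] (hρ : Function.Injective ρ) (i : I) :
    Nonempty (Loc H ρ i) := by
  classical
  obtain ⟨β, Δ, s, M, hs, hΔ, rel⟩ := exists_s (I := I) ρ hρ
  let ν : MvPolynomial δ k := X (Classical.arbitrary δ)
  let cc := ∏ h ∈ Finset.univ.erase (1 : H), ta ρ h (Δ * ν)
  have hγ : Δ * ν * cc = ∏ h : H, ta ρ h (Δ * ν) := by
    rw [← Finset.mul_prod_erase _ _ (Finset.mem_univ (1 : H)), ta_one]
  let Xw : NN G I δ → MvPolynomial (KK G I δ) k := fun c => X (.inl c)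
  let y : δ → MvPolynomial (KK G I δ) k := fun c => X (.inr c)
  let v := (pr ρ).map C *ᵥ Xw
  let p : NN G I δ → k := fun c => pt k H i (.inl c)
  have hp : pr ρ *ᵥ p = 0 := by
    ext l
    refine Finset.sum_eq_zero fun ⟨x, j⟩ _ => ?_
    cases j <;> simp [p, pt, pr]
  have hp' : ∀ {T : Type} [CommRing T] (f : k →+* T), (pr ρ).map f *ᵥ (f ∘ p) = 0 := by
    intro T _ f
    ext l
    rw [← RingHom.map_mulVec, hp]; simp
  let z := Xw - C ∘ p - (io ρ).map C *ᵥ v
  have iv : ∀ (h : H) l, rename (act (h : G)⁻¹) (v l) = ∑ l', ρ h l l' • v l' := by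
    intro h l
    simp only [v, mulVec, dotProduct, map_sum, map_mul, Finset.smul_sum, map_apply, rename_C]
    rw [Finset.sum_comm, ← (tr (h : G)).sum_comp]
    refine Finset.sum_congr rfl fun c _ => ?_
    simp only [tr, Equiv.prodCongr_apply, Prod.map, Equiv.coe_mulLeft, Equiv.coe_refl, id, pr_mul,
      map_sum, Finset.sum_mul, Xw, rename_X, act, Sum.map_inl, inv_mul_cancel_left, map_mul,
      smul_eq_C_mul, mul_assoc]
  have iV : ∀ (h : H) f, rename (act (h : G)) (aeval v f) = aeval v (ta ρ h f) := by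
    intro h f
    have : (rename (act (h : G))).comp (aeval v) = (aeval v).comp (ta ρ h) := by
      ext1 l
      simpa [ta] using iv h⁻¹ l
    exact congrArg (fun y => y f) this
  have iz : ∀ (h : H) c, rename (act (h : G)) (z c) = z (h * c.1, c.2) := by
    intro h c
    have := iv h⁻¹
    simp only [InvMemClass.coe_inv, inv_inv] at this
    simp only [z, Pi.sub_apply, map_sub, mulVec, dotProduct, map_sum, map_mul, map_apply, rename_C,
      Function.comp, this, io_mul, Finset.mul_sum, Finset.sum_mul, smul_eq_C_mul, mul_assoc]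
    rw [Finset.sum_comm, show p (h * c.1, c.2) = p c from pt_mul i h (.inl c)]
    simp [Xw, act]
  have rV := rel.map (aeval v).toRingHom
  have eV : ∀ {a b : Type} (A : Matrix a b k), (A.map C).map (aeval v).toRingHom = A.map C :=
    fun A => by ext1; simp
  rw [eV, eV] at rV
  have hz : (pr ρ).map C *ᵥ z = 0 := by
    simp only [z, mulVec_sub, hp', mulVec_mulVec, rV.pi, v, ← Matrix.mul_assoc,
      Matrix.one_mul, sub_zero, sub_self]
  let B := s.map (aeval v).toRingHom *ᵥ z + (io ρ).map C *ᵥ y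
  let lin : KK G I δ → MvPolynomial δ k := Sum.elim ((io ρ).map C *ᵥ X) 0
  let M' : KK G I δ → NN G I δ → MvPolynomial δ k :=
    Sum.elim M fun l c => Δ * C (pr ρ l c)
  let F := phi0 (pt k H i) lin (Δ * ν * cc * ν * cc) M'
  let c₀ : MvPolynomial δ (MvPolynomial (NN G I δ) k) := map C (Δ * ν * cc * ν * cc)
  let a : NN G I δ → MvPolynomial δ (MvPolynomial (NN G I δ) k) := fun c => C (X c)
  let f₀ : k →+* MvPolynomial δ (MvPolynomial (NN G I δ) k) := C.comp C
  have rF := rel.map (map (C : k →+* MvPolynomial (NN G I δ) k))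
  have eF : ∀ {a b : Type} (A : Matrix a b k), (A.map C).map (map C) = A.map f₀ :=
    fun A => by ext1; simp [f₀]
  rw [eF, eF] at rF
  have FC : ∀ x, F (C x) = f₀ x := fun x => by simp [f₀]
  have Fm : ∀ {a b : Type} [Fintype b] (A : Matrix a b k) (w : b → _) l,
      F ((A.map C *ᵥ w) l) = (A.map f₀ *ᵥ (F ∘ w)) l := fun A w l => by
    simp [mulVec, dotProduct, f₀]
  have FX : F ∘ Xw = f₀ ∘ p + ((io ρ).map f₀ *ᵥ X + c₀ • M.map (map C) *ᵥ a) := by
    ext1 c
    simp [F, Xw, phi0, f₀, p, lin, mulVec, dotProduct, c₀, M', a, add_assoc]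
  have Fy : F ∘ y = (c₀ * map C Δ) • (pr ρ).map f₀ *ᵥ a := by
    ext1 l
    simp [F, y, phi0, f₀, pt, lin, mulVec, dotProduct, c₀, M', a, mul_assoc, Finset.mul_sum]
  have Fv : ∀ l, F (v l) = X l := fun l => by
    rw [Fm, FX, mulVec_add, hp', zero_add, (rF.c2 X a c₀).1]
  have FV : ∀ f, F (aeval v f) = MvPolynomial.map C f := by
    intro f
    induction f using MvPolynomial.induction_on with
    | C b => simp [FC, f₀]
    | add p q hp hq => simp only [map_add, hp, hq]
    | mul_X p c hp => simp only [map_mul, hp, aeval_X, Fv, map_X]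
  have Fz : F ∘ z = c₀ • M.map (map C) *ᵥ a := by
    ext1 c
    have := congrFun FX c
    simp only [Function.comp, z, Pi.sub_apply, map_sub, Fm, FC, Pi.add_apply] at this ⊢
    rw [this, show F ∘ v = X from funext Fv]
    ring
  refine ⟨⟨v, Δ, ν, cc, lin, M', B, by simp [ν], ?_, ?_, ?_, ?_, ?_, ?_, iv, ?_, Fv, ?_⟩⟩
  · rw [hγ]
    refine Finset.prod_ne_zero_iff.mpr fun h _ e => mul_ne_zero (b := ν) hΔ (X_ne_zero _) ?_
    have := congrArg (ta ρ h⁻¹) e
    rwa [ta_ta, inv_mul_cancel, ta_one, map_zero] at this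
  · rintro (c | l) <;> simp [lin, mulVec, dotProduct]
  · intro g
    simp [lin, mulVec, dotProduct, io]
  · rintro (c | l)
    · have := congrFun (rV.c1 hz y).1 c
      refine Eq.trans ?_ this.symm
      simp [z, lin, Xw, p, mulVec, dotProduct]
    · have := congrFun (rV.c1 hz y).2 l
      simp only [M', Sum.elim_inr, map_mul, mul_assoc, ← Finset.mul_sum, aeval_C, lin, pt,
        Pi.zero_apply, map_zero, sub_zero]
      exact congrArg _ this.symm
  · intro h
    rw [iV, hγ, map_prod]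
    simp only [ta_ta]
    exact congrArg _ (Equiv.prod_comp (Equiv.mulLeft h) fun h => ta ρ h (Δ * ν))
  · intro h c
    have e : ∀ c, (s.map (aeval v).toRingHom *ᵥ z) c =
        ∑ h : H, rename (act (h : G)) (aeval v β * z c) := by
      intro c
      simp only [mulVec, dotProduct, hs, map_apply, Matrix.sum_apply, map_sum, Finset.sum_mul]
      rw [Finset.sum_comm]
      refine Finset.sum_congr rfl fun h _ => ?_
      rw [map_mul, iV, iz]
      simp [pm, apply_ite]
    simp only [B, Pi.add_apply, e, map_add, map_sum, rename_rename]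
    refine congrArg₂ _ ((Equiv.sum_comp (Equiv.mulLeft h) fun h' : H =>
      rename (act (h' : G)) (aeval v β * z c)) ▸ Finset.sum_congr rfl fun h' _ => ?_) ?_
    · rw [show act (h : G) ∘ act (h' : G) = act ((h * h' : H) : G) by
        ext1 κ; cases κ <;> simp [act, mul_assoc]]
      rfl
    · simp [mulVec, dotProduct, y, act]
  · intro w hw l
    simp only [v, mulVec, dotProduct, map_sum]
    refine Finset.sum_eq_zero fun ⟨x, j⟩ _ => ?_
    cases j <;> simp [Xw, hw, pr]
  · intro c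
    have := congrFun (rF.c2 X a c₀).2 c
    rw [← Fz, ← Fy] at this
    refine Eq.trans ?_ (this.trans ?_)
    · simp only [B, Pi.add_apply, map_add]
      refine congrArg₂ _ ?_ (Fm _ _ _)
      simp only [mulVec, dotProduct, map_sum, map_mul, map_apply]
      exact Finset.sum_congr rfl fun c' _ => congrArg (· * _) (FV _)
    · simp only [c₀, a, Pi.smul_apply, smul_eq_mul, map_mul]
      ring

end mats

end Pool.Agent.H.MP_322e80_ag
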