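import Pool.Agent.H.MP_322e80_ag.C

namespace Pool.Agent.H.MP_322e80_ag

set_option linter.unusedSectionVars false

open MvPolynomial

variable {k G I δ : Type} [Field k] [Group G] [Fintype G] [DecidableEq G]
  [Fintype I] [DecidableEq I] [Fintype δ] [DecidableEq δ]

/-- big polynomial ring -/
abbrev RR (k G I δ : Type) [Field k] : Type := MvPolynomial (KK G I δ) k

variable (E : Type) [Field E] [Algebra k E] [Algebra (MvPolynomial (NN G I δ) k) E]
  [IsScalarTower k (MvPolynomial (NN G I δ) k) E] [IsFractionRing (MvPolynomial (NN G I δ) k) E]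

/-- `v ↦ t v` -/
noncomputable def TT : MvPolynomial δ k →+* PowerSeries (MvPolynomial δ E) :=
  (psi δ E).toRingHom.comp (map (algebraMap k _))

variable (k) in
/-- parameters -/
noncomputable def aa (c : NN G I δ) : E := algebraMap (MvPolynomial (NN G I δ) k) _ (X c)

theorem psi_C {B : Type} [CommRing B] (b : B) : psi δ B (C b) = PowerSeries.C (C b) := by
  rw [algHom_C, PowerSeries.algebraMap_apply]; rfl

theorem TT_cc (f : MvPolynomial δ k) :
    PowerSeries.constantCoeff (TT E f) = C (algebraMap k _ (constantCoeff f)) := by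
  induction f using MvPolynomial.induction_on with
  | C b => simp [TT, PowerSeries.algebraMap_apply]
  | add p q hp hq => simp only [map_add, hp, hq]
  | mul_X p c hp => simp [TT, psi]

theorem rename_act (g g' : G) (f : RR k G I δ) :
    rename (act g) (rename (act g') f) = rename (act (g * g')) f := by
  rw [rename_rename, show act g ∘ act g' = act (g * g') by
    ext1 κ; cases κ <;> simp [act, mul_assoc]]

theorem rename_one (f : RR k G I δ) : rename (act (1 : G)) f = f := by
  rw [show act (1 : G) = (id : KK G I δ → _) by ext1 κ; cases κ <;> simp [act], rename_id]; rfl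

theorem rename_inj (g : G) : Function.Injective (rename (act g) : RR k G I δ → RR k G I δ) :=
  Function.LeftInverse.injective (g := rename (act g⁻¹)) fun f => by
    rw [rename_act, inv_mul_cancel, rename_one]

namespace Loc

variable {H : Subgroup G} {ρ : H →* Matrix δ δ k} {i : I} (L : Loc H ρ i) [Fintype H]

/-- the invariant `γ` -/
noncomputable def γ : RR k G I δ := aeval L.v (L.Δ * L.ν * L.cc)

/-- the invariant `u` -/
noncomputable def u (_ : Loc H ρ i) : RR k G I δ := ∑ h : H, (X (.inl (h, .inr i)) - 1)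

/-- denominator -/
noncomputable def q : RR k G I δ := L.γ ^ 2 + L.u ^ 2

/-- numerators -/
noncomputable def num (o : Option (NN G I δ)) : RR k G I δ := L.γ ^ 2 * o.elim L.q L.B

/-- the branch -/
noncomputable def φ : RR k G I δ →+* PowerSeries (MvPolynomial δ E) :=
  (psi δ E).toRingHom.comp ((map (algebraMap _ _)).comp
    (phi0 (pt k H i) L.lin (L.Δ * L.ν * L.cc * L.ν * L.cc) L.M).toRingHom)

theorem mapC (f : MvPolynomial δ k) :
    map (algebraMap (MvPolynomial (NN G I δ) k) E) (map C f) =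
      map (algebraMap k _) f := by
  rw [map_map, IsScalarTower.algebraMap_eq k (MvPolynomial (NN G I δ) k) E]; rfl

theorem φ_C (a : k) : L.φ E (C a) = PowerSeries.C (C (algebraMap k _ a)) := by
  simp only [φ, RingHom.comp_apply, AlgHom.toRingHom_eq_coe, RingHom.coe_coe, algHom_C]
  rw [← psi_C, IsScalarTower.algebraMap_apply k (MvPolynomial (NN G I δ) k) E,
    ← map_C (algebraMap (MvPolynomial (NN G I δ) k) E)]; rfl

theorem φ_X (κ : KK G I δ) : L.φ E (X κ) = PowerSeries.C (C (algebraMap k _ (pt k H i κ))) +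
    TT E (L.lin κ) + TT E (L.Δ * L.ν * L.cc * L.ν * L.cc) *
      ∑ c, TT E (L.M κ c) * PowerSeries.C (C (aa k E c)) := by
  simp only [φ, RingHom.comp_apply, AlgHom.toRingHom_eq_coe, RingHom.coe_coe, phi0, aeval_X,
    map_add, map_sum, map_mul, mapC, map_C, psi_C, TT, aa]
  rw [IsScalarTower.algebraMap_apply k (MvPolynomial (NN G I δ) k) E]; rfl

theorem φ_v (l : δ) : L.φ E (L.v l) = PowerSeries.X * PowerSeries.C (X l) := by
  simp only [φ, RingHom.comp_apply, AlgHom.toRingHom_eq_coe, RingHom.coe_coe, L.fv]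
  simp [psi]

theorem φ_V (f : MvPolynomial δ k) : L.φ E (aeval L.v f) = TT E f := by
  induction f using MvPolynomial.induction_on with
  | C b => simp [TT, PowerSeries.algebraMap_apply, φ_C]
  | add p q hp hq => simp only [map_add, hp, hq]
  | mul_X p c hp => simp only [map_mul, hp, aeval_X, φ_v]; simp [TT, psi]

theorem φ_B (c : NN G I δ) : L.φ E (L.B c) = L.φ E L.γ ^ 2 * PowerSeries.C (C (aa k E c)) := by
  rw [γ, φ_V]
  simp only [φ, RingHom.comp_apply, AlgHom.toRingHom_eq_coe, RingHom.coe_coe, L.fB, map_mul,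
    map_pow, mapC, map_C, psi_C, TT, aa]

theorem φ_cc (f : RR k G I δ) :
    PowerSeries.constantCoeff (L.φ E f) = C (algebraMap k _ (eval (pt k H i) f)) := by
  induction f using MvPolynomial.induction_on with
  | C b => simp [φ_C]
  | add p q hp hq => simp only [map_add, hp, hq]
  | mul_X p c hp => simp [hp, φ_X, TT_cc, L.hν, L.hlin]

include E in
theorem γ_ne : L.γ ≠ 0 := by
  intro h
  have := congrArg (L.φ E) h
  rw [γ, φ_V, map_zero] at this
  exact L.hγ (map_injective _ (algebraMap k E).injective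
    (psi_inj (this.trans (by simp))))

theorem φ_inj : Function.Injective (L.φ E) := by
  let K := FractionRing (RR k G I δ)
  let j := algebraMap (RR k G I δ) K
  let ψ : MvPolynomial δ (MvPolynomial (NN G I δ) k) →+* K :=
    eval₂Hom (eval₂Hom (j.comp C) fun c => j (L.B c) / j L.γ ^ 2) fun l => j (L.v l)
  have hψ : ∀ f, ψ (map C f) = j (aeval L.v f) := by
    intro f
    induction f using MvPolynomial.induction_on with
    | C b => simp [ψ]
    | add p q hp hq => simp only [map_add, hp, hq]
    | mul_X p c hp => simp only [map_mul, hp]; simp [ψ]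
  have hγ : j L.γ ≠ 0 := (map_ne_zero_iff _ (IsFractionRing.injective _ _)).mpr (L.γ_ne E)
  have e : ψ.comp (phi0 (pt k H i) L.lin (L.Δ * L.ν * L.cc * L.ν * L.cc) L.M).toRingHom = j := by
    refine ringHom_ext (fun a => ?_) fun κ => ?_
    · simp [ψ]
    · have := congrArg j (L.r1 κ)
      have e2 : ψ (C (C (pt k H i κ))) = j (C (pt k H i κ)) := by simp [ψ]
      have e3 : ∀ c, ψ (C (X c)) = j (L.B c) / j L.γ ^ 2 := fun c => by simp [ψ]
      simp only [RingHom.comp_apply, AlgHom.toRingHom_eq_coe, RingHom.coe_coe, phi0, aeval_X,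
        map_add, map_sum, map_mul, hψ, e2, e3, ← mul_div_assoc, ← Finset.sum_div, map_sub] at this ⊢
      rw [← this]
      simp only [γ, map_mul] at hγ ⊢
      rw [← eq_sub_iff_add_eq', div_eq_iff (pow_ne_zero _ hγ)]
      ring
  have h0 : Function.Injective
      (phi0 (pt k H i) L.lin (L.Δ * L.ν * L.cc * L.ν * L.cc) L.M).toRingHom :=
    Function.Injective.of_comp (f := ψ) (by
      rw [← RingHom.coe_comp, e]; exact IsFractionRing.injective _ _)
  exact psi_inj.comp ((map_injective _ (IsFractionRing.injective _ _)).comp h0)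

theorem iu (h : H) : rename (act (h : G)) L.u = L.u := by
  simp only [u, map_sum, map_sub, rename_X, map_one]
  exact Fintype.sum_equiv (Equiv.mulLeft h) _ _ fun h' => by simp [act]

theorem iγ' (h : H) : rename (act (h : G)) L.γ = L.γ := L.iγ h

theorem iq (h : H) : rename (act (h : G)) L.q = L.q := by
  simp only [q, map_add, map_pow, iu, iγ']

theorem inum (h : H) (o) : rename (act (h : G)) (L.num o) = L.num o := by
  cases o <;> simp only [num, map_mul, map_pow, Option.elim, iq, iγ', L.iB]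

theorem own (o : Option (NN G I δ)) : L.φ E L.q ≠ 0 ∧ ∃ s, s * L.φ E L.q ^ 2 = L.φ E (L.num o) ∧
    PowerSeries.X ^ 2 ∣ s - PowerSeries.C (C (o.elim 1 (aa k E))) := by
  obtain ⟨r, hr⟩ : ∃ r, L.φ E L.u = L.φ E L.γ * (PowerSeries.X * r) := by
    obtain ⟨w, hw⟩ : PowerSeries.X ∣ TT E L.ν := by
      rw [PowerSeries.X_dvd_iff, TT_cc, L.hν]; simp
    refine ⟨w * TT E L.cc * ∑ h : H, ∑ c, TT E (L.M (.inl (h, .inr i)) c) *
      PowerSeries.C (C (aa k E c)), ?_⟩
    simp only [u, map_sum, map_sub, φ_X, γ, φ_V, L.hlinu, pt, SetLike.coe_mem, and_self, if_true,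
      map_one, map_zero, Finset.mul_sum _ _ (w * _), map_mul]
    rw [Finset.mul_sum, Finset.mul_sum]
    refine Finset.sum_congr rfl fun h _ => ?_
    rw [← Finset.mul_sum]
    nth_rewrite 2 [hw]
    ring
  obtain ⟨W, hW⟩ : ∃ W, W * (1 + (PowerSeries.X * r) ^ 2) = 1 :=
    (PowerSeries.isUnit_iff_constantCoeff.mpr (by simp)).exists_left_inv
  have hq : L.φ E L.q = L.φ E L.γ ^ 2 * (1 + (PowerSeries.X * r) ^ 2) := by
    rw [q, map_add, map_pow, map_pow, hr]; ring
  have hγ : L.φ E L.γ ≠ 0 := (map_ne_zero_iff _ (L.φ_inj E)).mpr (L.γ_ne E)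
  refine ⟨hq ▸ mul_ne_zero (pow_ne_zero _ hγ) (right_ne_zero_of_mul_eq_one hW), ?_⟩
  cases o with
  | none =>
    refine ⟨W, ?_, -W * r ^ 2, ?_⟩
    · simp only [num, Option.elim, map_mul, map_pow, hq]
      linear_combination (L.φ E L.γ ^ 4 * (1 + (PowerSeries.X * r) ^ 2)) * hW
    · simp only [Option.elim, map_one]
      linear_combination hW
  | some c =>
    refine ⟨W ^ 2 * PowerSeries.C (C (aa k E c)), ?_,
      -W * r ^ 2 * (W + 1) * PowerSeries.C (C (aa k E c)), ?_⟩
    · simp only [num, Option.elim, map_mul, map_pow, hq, φ_B]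
      linear_combination (L.φ E L.γ ^ 4 * PowerSeries.C (C (aa k E c)) *
        (W * (1 + (PowerSeries.X * r) ^ 2) + 1)) * hW
    · simp only [Option.elim]
      linear_combination ((W + 1) * PowerSeries.C (C (aa k E c))) * hW

variable {H' : Subgroup G} {ρ' : H' →* Matrix δ δ k} {i' : I} (L' : Loc H' ρ' i') [Fintype H']

theorem ev_γ (g : G) : eval (pt k H i) (rename (act g) L'.γ) = 0 := by
  have : ∀ f, eval (pt k H i ∘ act g) (aeval L'.v f) = constantCoeff f := by
    intro f
    induction f using MvPolynomial.induction_on with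
    | C b => simp
    | add p q hp hq => simp only [map_add, hp, hq]
    | mul_X p c hp =>
      simp only [map_mul, aeval_X, L'.v0 (pt k H i ∘ act g) (fun _ _ => rfl), constantCoeff_X,
        mul_zero]
  rw [eval_rename, γ, this]
  simp [L'.hν]

theorem ev_q [CharZero k] (g : G) (hg : ∀ h : H', ¬ (i' = i ∧ g * h ∈ H)) :
    eval (pt k H i) (rename (act g) L'.q) ≠ 0 := by
  rw [q, map_add, map_add, map_pow, map_pow, ev_γ]
  simp only [map_pow, u, map_sum, map_sub, rename_X, eval_X, act, Sum.map_inl,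
    pt, hg, if_false, map_one]
  simp

theorem other [CharZero k] (g : G) (hg : ∀ h : H', ¬ (i' = i ∧ g * h ∈ H))
    (o : Option (NN G I δ)) : L.φ E (rename (act g) L'.q) ≠ 0 ∧
    ∃ s, s * L.φ E (rename (act g) L'.q) ^ 2 = L.φ E (rename (act g) (L'.num o)) ∧
      PowerSeries.X ^ 2 ∣ s - PowerSeries.C (C 0) := by
  obtain ⟨W, hW⟩ : ∃ W, W * L.φ E (rename (act g) L'.q) = 1 :=
    (PowerSeries.isUnit_iff_constantCoeff.mpr (by
      rw [φ_cc]
      exact ((ev_q L' g hg).isUnit.map _).map _)).exists_left_inv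
  obtain ⟨w, hw⟩ : PowerSeries.X ∣ L.φ E (rename (act g) L'.γ) := by
    rw [PowerSeries.X_dvd_iff, φ_cc, ev_γ]; simp
  refine ⟨right_ne_zero_of_mul_eq_one hW, L.φ E (rename (act g) (L'.num o)) * W ^ 2, ?_,
    w ^ 2 * L.φ E (rename (act g) (o.elim L'.q L'.B)) * W ^ 2, ?_⟩
  · rw [mul_assoc, ← mul_pow, hW]; simp
  · simp only [num, map_mul, map_pow, hw, map_zero]
    ring

end Loc

end Pool.Agent.H.MP_322e80_ag
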