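import Pool.Agent.H.MP_322e80_ag.D

namespace Pool.Agent.H.MP_322e80_ag

set_option linter.unusedSectionVars false

open MvPolynomial

variable {k G I δ : Type} [Field k] [Group G] [Fintype G] [DecidableEq G]
  [Fintype I] [DecidableEq I] [Fintype δ] [DecidableEq δ] {H : I → Subgroup G}
  {ρ : ∀ i, H i →* Matrix δ δ k} (L : ∀ i, Loc (H i) (ρ i) i) [∀ i, Fintype (H i)]

theorem not_own {i i' : I} {g : G} (hg : ¬ (i' = i ∧ g ∈ H i)) (h : H i') :
    ¬ (i' = i ∧ g * h ∈ H i) := by
  rintro ⟨rfl, e⟩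
  exact hg ⟨rfl, ((H i').mul_mem_cancel_right h.2).mp e⟩

theorem sum_own [CharZero k] {T : Type} [CommRing T] (j : k →+* T) (i : I) (t : T)
    (f : G → I → T) (h1 : ∀ g ∈ H i, f g i = t) (h2 : ∀ g i', ¬ (i' = i ∧ g ∈ H i) → f g i' = 0) :
    ∑ i', j (Fintype.card (H i') : k)⁻¹ * ∑ g, f g i' = t := by
  classical
  rw [Finset.sum_eq_single i (fun i' _ hi => by
    rw [Finset.sum_eq_zero fun g _ => h2 g i' fun e => hi e.1, mul_zero]) (by simp)]
  have : ∑ g, f g i = ∑ _g : H i, t := by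
    rw [← sum_sub]
    refine Finset.sum_congr rfl fun g _ => ?_
    by_cases hg : g ∈ H i
    · rw [dif_pos hg, h1 g hg]
    · rw [dif_neg hg, h2 g i fun e => hg e.2]
  rw [this, Finset.sum_const, nsmul_eq_mul, ← mul_assoc, ← map_natCast j, ← map_mul,
    Finset.card_univ, inv_mul_cancel₀ (Nat.cast_ne_zero.mpr Fintype.card_ne_zero), map_one, one_mul]

theorem tangent_core [CharZero k] {A Λ : Type} [CommRing A] [IsDomain A] [Field Λ]
    (ι : RR k G I δ →+* A) (hι : Function.Injective ι) (g : G × I × Option (NN G I δ) → A)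
    (rel : ∀ y i o, ι (rename (act y) (L i).q) ^ 2 * g (y, i, o) =
      ι (rename (act y) ((L i).num o))) (i : I) (hq : (L i).q ≠ 0) (hγ : (L i).γ ≠ 0)
    (x : A →+* Λ) (j : k →+* Λ) (hx : ∀ f, x (ι f) = j (eval (pt k (H i) i) f))
    (hη : x (g (1, i, none)) = 1) (D : A →+ Λ) (lei : ∀ a b, D (a * b) = x a * D b + x b * D a)
    (hC : ∀ a, D (ι (C a)) = 0) (hv : ∀ l, D (ι ((L i).v l)) = 0)
    (hl : ∀ c, D (∑ i', ι (C (Fintype.card (H i') : k)⁻¹) * ∑ y, g (y, i', some c)) = 0) :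
    (∀ κ, D (ι (X κ)) = 0) ∧ ∀ y, D (g y) = 0 := by
  have hq' : ι (L i).q ≠ 0 := (map_ne_zero_iff _ hι).mpr hq
  have hγ' : ι (L i).γ ≠ 0 := (map_ne_zero_iff _ hι).mpr hγ
  have r1 : ∀ o, ι (L i).q ^ 2 * g (1, i, o) = ι ((L i).num o) := fun o => by
    simpa only [rename_one] using rel 1 i o
  obtain ⟨η, hη'⟩ : ∃ η, η = g (1, i, none) := ⟨_, rfl⟩
  have e1 : ι (L i).q * η = ι (L i).γ ^ 2 := by
    refine mul_left_cancel₀ hq' ?_
    have := r1 none
    simp only [Loc.num, Option.elim, map_mul, map_pow, ← hη'] at this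
    linear_combination this
  have e2 : ∀ c, ι (L i).q ^ 2 * g (1, i, some c) = ι (L i).γ ^ 2 * ι ((L i).B c) := fun c => by
    simpa only [Loc.num, Option.elim, map_mul, map_pow] using r1 (some c)
  let V : MvPolynomial δ k →+* A := ι.comp (aeval (L i).v).toRingHom
  have hV : ∀ f, ι (aeval (L i).v f) = V f := fun _ => rfl
  have eγ : ι (L i).γ = V (L i).Δ * V (L i).ν * V (L i).cc := by
    rw [Loc.γ, hV, map_mul, map_mul]
  have DV : ∀ f, D (V f) = 0 := by
    intro f
    induction f using MvPolynomial.induction_on with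
    | C b => simpa [← hV] using hC b
    | add p q hp hq => simp only [map_add, hp, hq, add_zero]
    | mul_X p c hp => rw [map_mul, lei, hp, ← hV (X c), aeval_X, hv]; simp
  have xV : ∀ f, x (V f) = j (constantCoeff f) := by
    intro f
    induction f using MvPolynomial.induction_on with
    | C b => simpa [← hV] using hx (C b)
    | add p q hp hq => simp only [map_add, hp, hq]
    | mul_X p c hp =>
      rw [map_mul, map_mul, ← hV (X c), aeval_X, hx, (L i).v0 _ (fun _ _ => rfl)]; simp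
  have K1 : ∀ κ, η ^ 2 * (ι (X κ) - ι (C (pt k (H i) i κ)) - V ((L i).lin κ)) =
      ι (L i).γ * V (L i).ν * (V (L i).cc * ∑ c, V ((L i).M κ c) * g (1, i, some c)) := by
    intro κ
    have h := congrArg ι ((L i).r1 κ)
    simp only [map_mul, map_sub, map_sum, hV] at h
    have h2 : ι (L i).q ^ 2 * ∑ c, V ((L i).M κ c) * g (1, i, some c) =
        ι (L i).γ ^ 2 * ∑ c, V ((L i).M κ c) * ι ((L i).B c) := by
      rw [Finset.mul_sum, Finset.mul_sum]
      exact Finset.sum_congr rfl fun c _ => by linear_combination V ((L i).M κ c) * e2 c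
    rw [← h] at h2
    refine mul_left_cancel₀ (pow_ne_zero 2 hq') ?_
    generalize ι (X κ) - ι (C (pt k (H i) i κ)) - V ((L i).lin κ) = z at h2 ⊢
    linear_combination (z * (ι (L i).q * η + ι (L i).γ ^ 2)) * e1 -
      ι (L i).γ * V (L i).ν * V (L i).cc * h2 + ι (L i).γ ^ 3 * z * eγ
  have xη : x η = 1 := hη' ▸ hη
  have xν : x (V (L i).ν) = 0 := by rw [xV, (L i).hν, map_zero]
  have Dγ : D (ι (L i).γ * V (L i).ν) = 0 := by rw [Loc.γ, hV, ← map_mul, DV]
  have DX : ∀ κ, D (ι (X κ)) = 0 := by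
    intro κ
    have := congrArg D (K1 κ)
    rw [lei, lei _ (V _ * _), Dγ] at this
    simpa [xη, hC, DV, hx, xV, (L i).hlin, (L i).hν] using this
  have DR : ∀ f, D (ι f) = 0 := by
    intro f
    induction f using MvPolynomial.induction_on with
    | C b => exact hC b
    | add p q hp hq => simp only [map_add, hp, hq, add_zero]
    | mul_X p c hp => rw [map_mul, lei, hp, DX]; simp
  have oth : ∀ y i' o, ¬ (i' = i ∧ y ∈ H i) → D (g (y, i', o)) = 0 := by
    intro y i' o h
    have := congrArg D (rel y i' o)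
    rw [lei, ← map_pow, DR, DR, hx, mul_zero, add_zero, map_pow, map_pow] at this
    exact (mul_eq_zero.mp this).resolve_left
      (pow_ne_zero _ ((map_ne_zero j).mpr (Loc.ev_q (L i') y (not_own h))))
  have own : ∀ y ∈ H i, ∀ o, g (y, i, o) = g (1, i, o) := by
    intro y hy o
    have := rel y i o
    rw [(L i).iq ⟨y, hy⟩, (L i).inum ⟨y, hy⟩, ← r1] at this
    exact mul_left_cancel₀ (pow_ne_zero 2 hq') this
  have Dη : D η = 0 := by
    obtain ⟨r, hr⟩ : ∃ r, η ^ 2 * ι (L i).u = ι (L i).γ * V (L i).ν * r := by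
      refine ⟨∑ h : H i, V (L i).cc * ∑ c, V ((L i).M (.inl (h, .inr i)) c) * g (1, i, some c), ?_⟩
      rw [Loc.u, map_sum, Finset.mul_sum, Finset.mul_sum]
      refine Finset.sum_congr rfl fun h _ => ?_
      rw [← K1, (L i).hlinu]
      simp [pt]
    have K2 : η * η * η * (1 - η) = V (L i).ν * r * (V (L i).ν * r) := by
      refine mul_left_cancel₀ (pow_ne_zero 2 hγ') ?_
      have e3 : ι (L i).q = ι (L i).γ ^ 2 + ι (L i).u ^ 2 := by rw [Loc.q, map_add, map_pow, map_pow]
      rw [e3] at e1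
      linear_combination (η ^ 2 * ι (L i).u + ι (L i).γ * V (L i).ν * r) * hr - η ^ 3 * e1
    have := congrArg D K2
    have D1 : D 1 = 0 := by simpa using DR 1
    rw [lei, lei (V _ * r)] at this
    simpa [xη, xν, D1] using this
  have Da : ∀ c, D (g (1, i, some c)) = 0 := by
    intro c
    rw [← hl c, ← sum_own j i (D (g (1, i, some c))) (fun y i' => D (g (y, i', some c)))
      (fun y hy => by rw [own y hy]) fun y i' h => oth y i' _ h]
    simp [lei, hC, hx]
  refine ⟨DX, fun ⟨y, i', o⟩ => ?_⟩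
  by_cases h : i' = i ∧ y ∈ H i
  · obtain ⟨rfl, h⟩ := h
    rw [own y h]
    cases o with
    | none => exact hη' ▸ Dη
    | some c => exact Da c
  · exact oth y i' o h

end Pool.Agent.H.MP_322e80_ag
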