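import Pool.Agent.H.MP_322e80_ag.E

namespace Pool.Agent.H.MP_322e80_ag

set_option linter.unusedSectionVars false

open MvPolynomial

theorem exists_lift {A S F : Type} [CommRing A] [CommRing S] [CommRing F] (f : S →+* F)
    (hf : Function.Injective f) (g : A →+* F) (h : ∀ a, ∃ s, f s = g a) :
    ∃ φ : A →+* S, ∀ a, f (φ a) = g a := by
  choose s hs using h
  exact ⟨{ toFun := s
           map_one' := hf (by simp [hs])
           map_mul' a b := hf (by simp [hs])
           map_zero' := hf (by simp [hs])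
           map_add' a b := hf (by simp [hs]) }, hs⟩

theorem assemble {E K Λ F G I δ Γ : Type} [Field E] [Field K] [Field Λ] [Field F] [Algebra E K]
    [Algebra E Λ] [Group G] [Fintype δ] [Nonempty I] [Finite Γ]
    (f : PowerSeries (MvPolynomial δ E) →+* F) (hf : Function.Injective f)
    (H : I → Subgroup G) (ρ : ∀ i, H i → Matrix δ δ E) (gen : Γ → K) (σ : G →* (K →ₐ[E] K))
    (ac : G → Γ → Γ) (hσ : ∀ g y, σ g (gen y) = gen (ac g y)) (φ : I → K →+* F) (res : I → Γ → E)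
    (hval : ∀ i y, ∃ s, f s = φ i (gen y) ∧ PowerSeries.constantCoeff s = C (res i y))
    (hE : ∀ i e, ∃ s, f s = φ i (algebraMap E K e) ∧
      PowerSeries.X ^ 2 ∣ s - PowerSeries.C (C e))
    (hres : ∀ i (h : H i) y, res i (ac h y) = res i y) (hinj : Function.Injective res)
    (v : I → δ → K) (hvA : ∀ i l, v i l ∈ Algebra.adjoin E (Set.range gen))
    (hv : ∀ i l, φ i (v i l) = f (PowerSeries.X * PowerSeries.C (X l)))
    (hρ : ∀ i (h : H i) l, σ (h : G)⁻¹ (v i l) = ∑ l', ρ i h l l' • v i l')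
    (hfr : ∀ z : K, ∃ a ∈ Algebra.adjoin E (Set.range gen), ∃ b ∈ Algebra.adjoin E (Set.range gen),
      z = a / b) (hd : Algebra.trdeg E K = Fintype.card δ)
    (hT : ∀ i (x : Algebra.adjoin E (Set.range gen) →ₐ[E] E),
      (∀ y, x ⟨gen y, Algebra.subset_adjoin ⟨y, rfl⟩⟩ = res i y) →
      ∀ D : Algebra.adjoin E (Set.range gen) →ₗ[E] Λ, (∀ a b, D (a * b) = x a • D b + x b • D a) →
      (∀ l, D ⟨v i l, hvA i l⟩ = 0) → ∀ y, D ⟨gen y, Algebra.subset_adjoin ⟨y, rfl⟩⟩ = 0) :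
    Good Λ H fun i h => (ρ i h).map (algebraMap E Λ) := by
  let A := Algebra.adjoin E (Set.range gen)
  have cE : ∀ {s : PowerSeries (MvPolynomial δ E)} {e : E},
      PowerSeries.X ^ 2 ∣ s - PowerSeries.C (C e) →
      PowerSeries.constantCoeff s = C e ∧ PowerSeries.coeff 1 s = 0 := by
    intro s e h
    rw [PowerSeries.X_pow_dvd_iff] at h
    have h0 := h 0 (by omega)
    have h1 := h 1 (by omega)
    simp only [map_sub, PowerSeries.coeff_zero_eq_constantCoeff_apply, PowerSeries.constantCoeff_C,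
      sub_eq_zero, PowerSeries.coeff_succ_C] at h0 h1
    exact ⟨h0, h1⟩
  have hO : ∀ i, ∀ a ∈ A, ∃ s, f s = φ i a ∧ ∃ e, PowerSeries.constantCoeff s = C e := by
    intro i a ha
    induction ha using Algebra.adjoin_induction with
    | mem _ h =>
      obtain ⟨y, rfl⟩ := h
      obtain ⟨s, h1, h2⟩ := hval i y
      exact ⟨s, h1, _, h2⟩
    | algebraMap e =>
      obtain ⟨s, h1, h2⟩ := hE i e
      exact ⟨s, h1, _, (cE h2).1⟩
    | add a b _ _ ha hb =>
      obtain ⟨s, h1, e, h2⟩ := ha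
      obtain ⟨s', h1', e', h2'⟩ := hb
      exact ⟨s + s', by simp [h1, h1'], e + e', by simp [h2, h2']⟩
    | mul a b _ _ ha hb =>
      obtain ⟨s, h1, e, h2⟩ := ha
      obtain ⟨s', h1', e', h2'⟩ := hb
      exact ⟨s * s', by simp [h1, h1'], e * e', by simp [h2, h2']⟩
  choose ψ hψ using fun i => exists_lift f hf ((φ i).comp A.val.toRingHom) fun a =>
    (hO i a a.2).imp fun s h => h.1
  have hψ' : ∀ i (a : A) s, f s = φ i a → ψ i a = s := fun i a s h => hf ((hψ i a).trans h.symm)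
  have hψE : ∀ i e, PowerSeries.constantCoeff (ψ i (algebraMap E A e)) = C e ∧
      PowerSeries.coeff 1 (ψ i (algebraMap E A e)) = 0 := fun i e => by
    obtain ⟨s, h1, h2⟩ := hE i e
    rw [hψ' i _ s h1]
    exact cE h2
  let x : I → (A →ₐ[E] E) := fun i =>
    { toRingHom := constantCoeff.comp (PowerSeries.constantCoeff.comp (ψ i))
      commutes' e := by simp [(hψE i e).1] }
  have hx : ∀ i a, x i a = constantCoeff (PowerSeries.constantCoeff (ψ i a)) := fun _ _ => rfl
  have hxg : ∀ i y, x i ⟨gen y, Algebra.subset_adjoin ⟨y, rfl⟩⟩ = res i y := fun i y => by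
    obtain ⟨s, h1, h2⟩ := hval i y
    rw [hx, hψ' i _ s h1, h2, constantCoeff_C]
  have hσA : ∀ g, ∀ a ∈ A, σ g a ∈ A := by
    intro g a ha
    have : A.map (σ g) ≤ A := by
      rw [AlgHom.map_adjoin]
      refine Algebra.adjoin_mono ?_
      rintro _ ⟨_, ⟨y, rfl⟩, rfl⟩
      exact ⟨_, (hσ g y).symm⟩
    exact this ⟨a, ha, rfl⟩
  let σ₁ : G →* (A →ₐ[E] A) :=
    { toFun g := ((σ g).comp A.val).codRestrict A fun a => hσA g a a.2
      map_one' := AlgHom.ext fun a => Subtype.ext (by simp)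
      map_mul' g g' := AlgHom.ext fun a => Subtype.ext (by simp) }
  let σ₂ : G →* (A ≃ₐ[E] A) := (AlgEquiv.algHomUnitsEquiv E A).toMonoidHom.comp σ₁.toHomUnits
  have hσ₂ : ∀ g (a : A), (σ₂ g a : K) = σ g a := fun _ _ => rfl
  have : Algebra.FiniteType E A := .adjoin_of_finite (Set.finite_range gen)
  have : IsFractionRing A K := .of_field _ _ fun z => by
    obtain ⟨a, ha, b, hb, e⟩ := hfr z
    exact ⟨⟨a, ha⟩, ⟨b, hb⟩, e⟩
  have := IsLocalization.isAlgebraic K (nonZeroDivisors A)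
  refine baseChange H ρ σ₂ x (fun i l => ⟨v i l, hvA i l⟩) ψ (fun i a b e => ?_) (fun i a => ?_)
    (fun i e => (hψE i e).2) (fun i l => hψ' i _ _ (hv i l).symm) ?_ (fun i j e => hinj ?_)
    (fun i h a => ?_) (fun i h l => Subtype.ext ?_) fun i D hD hDv => ?_
  · exact Subtype.ext ((φ i).injective ((hψ i a).symm.trans ((congrArg f e).trans (hψ i b))))
  · obtain ⟨s, h1, e, h2⟩ := hO i a a.2
    rw [hx, hψ' i _ s h1, h2, constantCoeff_C]
  · rw [← hd, ← trdeg_add_eq E A (A := K), trdeg_eq_zero (A := K), add_zero]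
  · ext y
    rw [← hxg, ← hxg, e]
  · obtain ⟨a, ha⟩ := a
    induction ha using Algebra.adjoin_induction with
    | mem _ h =>
      obtain ⟨y, rfl⟩ := h
      rw [hxg, ← hres i h, ← hxg]
      exact congrArg _ (Subtype.ext (hσ _ _))
    | algebraMap e => exact congrArg _ ((σ₂ h).commutes e)
    | add a b ha hb ha' hb' =>
      rw [show (⟨a + b, _⟩ : A) = ⟨a, ha⟩ + ⟨b, hb⟩ from rfl, map_add, map_add, ha', hb', map_add]
    | mul a b ha hb ha' hb' =>
      rw [show (⟨a * b, _⟩ : A) = ⟨a, ha⟩ * ⟨b, hb⟩ from rfl, map_mul, map_mul, ha', hb', map_mul]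
  · rw [hσ₂, hρ]
    simp
  · have h1 : D 1 = 0 := by simpa using hD 1 1
    ext ⟨a, ha⟩
    induction ha using Algebra.adjoin_induction with
    | mem _ h =>
      obtain ⟨y, rfl⟩ := h
      exact hT i (x i) (hxg i) D hD hDv y
    | algebraMap e =>
      rw [show (⟨algebraMap E K e, _⟩ : A) = algebraMap E A e from rfl,
        Algebra.algebraMap_eq_smul_one, map_smul, map_smul, h1]; rfl
    | add a b ha hb ha' hb' =>
      rw [show (⟨a + b, _⟩ : A) = ⟨a, ha⟩ + ⟨b, hb⟩ from rfl, map_add, ha', hb', map_add]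
    | mul a b ha hb ha' hb' =>
      rw [show (⟨a * b, _⟩ : A) = ⟨a, ha⟩ * ⟨b, hb⟩ from rfl, hD, ha', hb']; simp

end Pool.Agent.H.MP_322e80_ag
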