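import Pool.Agent.H.MP_322e80_ag.F

namespace Pool.Agent.H.MP_322e80_ag

set_option linter.unusedSectionVars false

open MvPolynomial

variable {k G I δ : Type} [Field k] [Group G] [Fintype G] [DecidableEq G]
  [Fintype I] [DecidableEq I] [Fintype δ] [DecidableEq δ] {H : I → Subgroup G}
  {ρ : ∀ i, H i →* Matrix δ δ k} (L : ∀ i, Loc (H i) (ρ i) i) [∀ i, Fintype (H i)]
  (E : Type) [Field E] [Algebra k E] [Algebra (MvPolynomial (NN G I δ) k) E]
  [IsScalarTower k (MvPolynomial (NN G I δ) k) E] [IsFractionRing (MvPolynomial (NN G I δ) k) E]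
  (K : Type) [Field K] [Algebra (RR k G I δ) K] [IsFractionRing (RR k G I δ) K]

/-- the new generators -/
noncomputable def gg (y : G × I × Option (NN G I δ)) : K :=
  algebraMap (RR k G I δ) K (rename (act y.1) ((L y.2.1).num y.2.2)) /
    algebraMap (RR k G I δ) K (rename (act y.1) (L y.2.1).q) ^ 2

open Classical in
/-- their residues -/
noncomputable def rs (k : Type) [Field k] (H : I → Subgroup G) (E : Type) [Field E]
    [Algebra (MvPolynomial (NN G I δ) k) E] (i : I) (y : G × I × Option (NN G I δ)) : E :=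
  if y.2.1 = i ∧ y.1 ∈ H i then y.2.2.elim 1 (aa k E) else 0

/-- the invariant functions -/
noncomputable def lam (c : NN G I δ) : K :=
  ∑ i, algebraMap (RR k G I δ) K (C (Fintype.card (H i) : k)⁻¹) * ∑ y, gg L K (y, i, some c)

theorem val [CharZero k] {F : Type} [Field F] (f : PowerSeries (MvPolynomial δ E) →+* F)
    (hf : Function.Injective f) (i : I) (φ : K →+* F)
    (hφ : ∀ a, φ (algebraMap (RR k G I δ) K a) = f ((L i).φ E a)) (y) :
    ∃ s, f s = φ (gg L K y) ∧ PowerSeries.X ^ 2 ∣ s - PowerSeries.C (C (rs k H E i y)) := by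
  obtain ⟨g, i', o⟩ := y
  suffices (L i).φ E (rename (act g) (L i').q) ≠ 0 ∧
      ∃ s, s * (L i).φ E (rename (act g) (L i').q) ^ 2 = (L i).φ E (rename (act g) ((L i').num o)) ∧
      PowerSeries.X ^ 2 ∣ s - PowerSeries.C (C (rs k H E i (g, i', o))) by
    obtain ⟨h1, s, h2, h3⟩ := this
    refine ⟨s, ?_, h3⟩
    rw [gg, map_div₀, map_pow, hφ, hφ, ← h2, map_mul, map_pow, mul_div_cancel_right₀]
    exact pow_ne_zero _ ((map_ne_zero_iff _ hf).mpr h1)
  by_cases h : i' = i ∧ g ∈ H i
  · rw [rs, if_pos h]
    obtain ⟨rfl, h⟩ := h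
    rw [(L i').iq ⟨g, h⟩, (L i').inum ⟨g, h⟩]
    exact (L i').own E o
  · rw [rs, if_neg h]
    exact (L i).other E (L i') g (not_own h) o

theorem val_lam [CharZero k] {F : Type} [Field F] (f : PowerSeries (MvPolynomial δ E) →+* F)
    (hf : Function.Injective f) (i : I) (φ : K →+* F)
    (hφ : ∀ a, φ (algebraMap (RR k G I δ) K a) = f ((L i).φ E a)) :
    ∃ θ : MvPolynomial (NN G I δ) k →+* PowerSeries (MvPolynomial δ E),
      (∀ a, f (θ a) = φ (eval₂Hom ((algebraMap (RR k G I δ) K).comp C) (lam L K) a)) ∧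
      ∀ a, PowerSeries.X ^ 2 ∣ θ a - PowerSeries.C (C (algebraMap _ E a)) := by
  choose s hs hs' using val L E K f hf i φ hφ
  let j := ((L i).φ E).comp C
  refine ⟨eval₂Hom j fun c => ∑ i', j (Fintype.card (H i') : k)⁻¹ * ∑ y, s (y, i', some c),
    fun a => ?_, fun a => ?_⟩
  · rw [← RingHom.comp_apply, ← RingHom.comp_apply φ]
    refine RingHom.congr_fun (ringHom_ext (fun a => ?_) fun c => ?_) a
    · simp only [RingHom.comp_apply, eval₂Hom_C, hφ, j]
    · simp only [RingHom.comp_apply, eval₂Hom_X', hφ, j, lam, map_sum, map_mul, hs]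
  · rw [← Ideal.mem_span_singleton, ← Ideal.Quotient.eq, ← RingHom.comp_apply,
      ← RingHom.comp_apply PowerSeries.C, ← RingHom.comp_apply (RingHom.comp _ _),
      ← RingHom.comp_apply (Ideal.Quotient.mk _)]
    refine RingHom.congr_fun (ringHom_ext (fun a => ?_) fun c => ?_) a
    · simp only [RingHom.comp_apply, eval₂Hom_C, j, Loc.φ_C]
      rw [IsScalarTower.algebraMap_apply k (MvPolynomial (NN G I δ) k) E]; rfl
    · simp only [RingHom.comp_apply, eval₂Hom_X']
      rw [Ideal.Quotient.eq, Ideal.mem_span_singleton, ← sum_own j i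
        (PowerSeries.C (C (algebraMap _ E (X c : MvPolynomial (NN G I δ) k))))
        (fun y i' => PowerSeries.C (C (rs k H E i (y, i', some c))))
        (fun y hy => by rw [rs, if_pos ⟨rfl, hy⟩]; rfl)
        (fun y i' h => by rw [rs, if_neg h, map_zero, map_zero]),
        ← Finset.sum_sub_distrib]
      refine Finset.dvd_sum fun i' _ => ?_
      rw [← mul_sub, ← Finset.sum_sub_distrib]
      exact Dvd.dvd.mul_left (Finset.dvd_sum fun y _ => hs' _) _

include L K in
theorem main [CharZero k] [Nonempty I] [Algebra k K] [IsScalarTower k (RR k G I δ) K]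
    {Λ F : Type} [Field Λ] [Algebra E Λ] [Field F] [Algebra (PowerSeries (MvPolynomial δ E)) F]
    [IsFractionRing (PowerSeries (MvPolynomial δ E)) F] :
    Good Λ H fun i h => ((ρ i h).map (algebraMap k E)).map (algebraMap E Λ) := by
  let f := algebraMap (PowerSeries (MvPolynomial δ E)) F
  have hf : Function.Injective f := IsFractionRing.injective _ _
  let j := algebraMap (RR k G I δ) K
  have hj : Function.Injective j := IsFractionRing.injective _ _
  obtain ⟨φ, hφ⟩ : ∃ φ : I → K →+* F, ∀ i a, φ i (j a) = f ((L i).φ E a) :=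
    ⟨fun i => IsFractionRing.lift (g := f.comp ((L i).φ E)) (hf.comp ((L i).φ_inj E)),
      fun i a => IsFractionRing.lift_algebraMap _ _⟩
  choose θ₁ hθ₁ hθ₂ using fun i => val_lam L E K f hf i (φ i) (hφ i)
  have cc₁ : ∀ i a, PowerSeries.constantCoeff (θ₁ i a) = C (algebraMap _ E a) := fun i a => by
    have := (dvd_pow_self _ two_ne_zero).trans (hθ₂ i a)
    rw [PowerSeries.X_dvd_iff, map_sub, sub_eq_zero] at this
    simpa using this
  let θ₀ := eval₂Hom (j.comp C) (lam L K)
  have h₀ : Function.Injective θ₀ := by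
    rw [injective_iff_map_eq_zero]
    intro a ha
    obtain ⟨i⟩ := ‹Nonempty I›
    have h1 := hθ₁ i a
    rw [ha, map_zero, map_eq_zero_iff _ hf] at h1
    have h2 := cc₁ i a
    rw [h1, map_zero, eq_comm, C_eq_zero] at h2
    exact (map_eq_zero_iff _ (IsFractionRing.injective _ _)).mp h2
  obtain ⟨θ, hθ⟩ : ∃ θ : E →+* K, ∀ a, θ (algebraMap _ E a) = θ₀ a :=
    ⟨IsFractionRing.lift h₀, IsFractionRing.lift_algebraMap _⟩
  let := θ.toAlgebra
  have hkE : ∀ a, algebraMap E K (algebraMap k E a) = j (C a) := fun a => by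
    rw [IsScalarTower.algebraMap_apply k (MvPolynomial (NN G I δ) k) E]
    exact (hθ _).trans (eval₂Hom_C _ _ _)
  have : IsScalarTower k E K := .of_algebraMap_eq fun a => by
    rw [hkE, IsScalarTower.algebraMap_apply k (RR k G I δ) K]; rfl
  obtain ⟨σ, hσ⟩ : ∃ σ : G → K →+* K, ∀ g a, σ g (j a) = j (rename (act g) a) :=
    ⟨fun g => IsFractionRing.lift (g := j.comp (rename (act g)).toRingHom) (hj.comp (rename_inj g)),
      fun g a => IsFractionRing.lift_algebraMap _ _⟩
  have hσg : ∀ g y, σ g (gg L K y) = gg L K (g * y.1, y.2) := fun g y => by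
    simp only [gg, map_div₀, map_pow]
    rw [hσ, hσ, rename_act, rename_act]
  have hσθ : ∀ g e, σ g (algebraMap E K e) = algebraMap E K e := fun g e => by
    refine RingHom.congr_fun (IsFractionRing.ringHom_ext (A := MvPolynomial (NN G I δ) k)
      (f1 := (σ g).comp θ) (f2 := θ) fun a => ?_) e
    rw [RingHom.comp_apply, hθ, ← RingHom.comp_apply]
    refine RingHom.congr_fun (ringHom_ext (fun a => ?_) fun c => ?_) a
    · simp only [θ₀, RingHom.comp_apply, eval₂Hom_C, hσ, rename_C]
    · simp only [θ₀, RingHom.comp_apply, eval₂Hom_X', lam, map_sum, map_mul, hσg]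
      refine Finset.sum_congr rfl fun i _ => ?_
      rw [hσ, rename_C]
      exact congrArg _ (Fintype.sum_equiv (Equiv.mulLeft g) _ _ fun _ => rfl)
  let σ' : G →* (K →ₐ[E] K) :=
    { toFun g := { toRingHom := σ g, commutes' := hσθ g }
      map_one' := AlgHom.coe_ringHom_injective (IsFractionRing.ringHom_ext (A := RR k G I δ)
        fun a => (hσ 1 a).trans (congrArg j (rename_one a)))
      map_mul' g g' := AlgHom.coe_ringHom_injective (IsFractionRing.ringHom_ext (A := RR k G I δ)
        fun a => (hσ _ a).trans (by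
          rw [← rename_act, ← hσ, ← hσ]; rfl)) }
  let gen : KK G I δ ⊕ G × I × Option (NN G I δ) → K := Sum.elim (fun κ => j (X κ)) (gg L K)
  have hA : ∀ a, j a ∈ Algebra.adjoin E (Set.range gen) := by
    intro a
    induction a using MvPolynomial.induction_on with
    | C b => exact hkE b ▸ Subalgebra.algebraMap_mem _ _
    | add p q hp hq => exact map_add j p q ▸ add_mem hp hq
    | mul_X p c hp => exact map_mul j p _ ▸ mul_mem hp (Algebra.subset_adjoin ⟨.inl c, rfl⟩)
  refine assemble f hf H _ gen σ' (fun g => Sum.map (act g) fun y => (g * y.1, y.2)) ?_ φ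
    (fun i => Sum.elim (fun κ => algebraMap k E (pt k (H i) i κ)) (rs k H E i)) ?_ ?_ ?_ ?_
    (fun i l => j ((L i).v l)) (fun i l => hA _) (fun i l => ?_) (fun i h l => ?_) (fun z => ?_) ?_
    fun i x hx D hD hDv => ?_
  · rintro g (κ | y)
    · exact (hσ g _).trans (congrArg j (rename_X _ _))
    · exact hσg g y
  · rintro i (κ | y)
    · exact ⟨_, (hφ i _).symm, by simp [Loc.φ_cc]⟩
    · obtain ⟨s, h1, h2⟩ := val L E K f hf i (φ i) (hφ i) y
      refine ⟨s, h1, ?_⟩
      have := (dvd_pow_self _ two_ne_zero).trans h2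
      rw [PowerSeries.X_dvd_iff, map_sub, sub_eq_zero] at this
      simpa using this
  · intro i e
    have hu : ∀ y : nonZeroDivisors (MvPolynomial (NN G I δ) k), IsUnit (θ₁ i y) := fun y => by
      rw [PowerSeries.isUnit_iff_constantCoeff, cc₁]
      exact (IsLocalization.map_units E y).map _
    refine ⟨IsLocalization.lift hu e, ?_, ?_⟩
    · refine RingHom.congr_fun (IsFractionRing.ringHom_ext (A := MvPolynomial (NN G I δ) k)
        (f1 := f.comp (IsLocalization.lift hu)) (f2 := (φ i).comp θ) fun a => ?_) e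
      rw [RingHom.comp_apply, IsLocalization.lift_eq, hθ₁, RingHom.comp_apply, hθ]
    · rw [← Ideal.mem_span_singleton, ← Ideal.Quotient.eq]
      refine RingHom.congr_fun (IsLocalization.ringHom_ext
        (nonZeroDivisors (MvPolynomial (NN G I δ) k))
        (j := (Ideal.Quotient.mk _).comp (IsLocalization.lift hu))
        (k := (Ideal.Quotient.mk _).comp (PowerSeries.C.comp C)) (RingHom.ext fun a => ?_)) e
      simp only [RingHom.comp_apply, IsLocalization.lift_eq]
      rw [Ideal.Quotient.eq, Ideal.mem_span_singleton]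
      exact hθ₂ i a
  · rintro i h (κ | y)
    · exact congrArg (algebraMap k E) (pt_mul i h κ)
    · classical exact if_congr (and_congr_right' ((H i).mul_mem_cancel_left h.2)) rfl rfl
  · intro i i' e
    by_contra h
    simpa [rs, h] using congrFun e (.inr (1, i, none))
  · rw [hφ, Loc.φ_v]
  · refine (hσ _ _).trans ?_
    rw [(L i).iv, map_sum]
    exact Finset.sum_congr rfl fun l' _ => by
      rw [smul_eq_C_mul, map_mul, Algebra.smul_def, Matrix.map_apply, hkE]
  · obtain ⟨a, b, -, e⟩ := IsFractionRing.div_surjective (RR k G I δ) z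
    exact ⟨_, hA a, _, hA b, e.symm⟩
  · have e1 := trdeg_add_eq k E (A := K)
    have := IsLocalization.isAlgebraic K (nonZeroDivisors (RR k G I δ))
    have := IsLocalization.isAlgebraic E (nonZeroDivisors (MvPolynomial (NN G I δ) k))
    rw [← trdeg_add_eq k (RR k G I δ) (A := K), ← trdeg_add_eq k (MvPolynomial (NN G I δ) k)
      (A := E), trdeg_eq_zero (A := E), trdeg_eq_zero (R := RR k G I δ), add_zero, add_zero,
      MvPolynomial.trdeg_of_isDomain, MvPolynomial.trdeg_of_isDomain, Cardinal.mk_fintype,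
      Cardinal.mk_fintype, Fintype.card_sum, Cardinal.lift_natCast, Cardinal.lift_natCast,
      Nat.cast_add] at e1
    exact (Cardinal.add_nat_inj _).mp ((add_comm _ _).trans (e1.trans (add_comm _ _)))
  · let ι : RR k G I δ →+* Algebra.adjoin E (Set.range gen) := j.codRestrict _ hA
    have hιC : ∀ a, ι (C a) = algebraMap E _ (algebraMap k E a) := fun a =>
      Subtype.ext (hkE a).symm
    have h1 : D 1 = 0 := by simpa using hD 1 1
    have hDE : ∀ e, D (algebraMap E _ e) = 0 := fun e => by
      rw [Algebra.algebraMap_eq_smul_one, map_smul, h1, smul_zero]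
    have hq := fun i => ((L i).own E none).1
    have := tangent_core L ι (fun a b e => hj (congrArg Subtype.val e))
      (fun y => ⟨gen (.inr y), Algebra.subset_adjoin ⟨_, rfl⟩⟩) (fun y i o => Subtype.ext ?_) i
      (fun e => hq i (by rw [e, map_zero])) ((L i).γ_ne E) ((algebraMap E Λ).comp x.toRingHom)
      ((algebraMap E Λ).comp (algebraMap k E)) (fun a => ?_) ?_ D.toAddMonoidHom
      (fun a b => by simpa [Algebra.smul_def] using hD a b) (fun a => by rw [hιC]; exact hDE _)
      hDv fun c => ?_
    · rintro (κ | y)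
      · exact this.1 κ
      · exact this.2 y
    · refine mul_div_cancel₀ _ (pow_ne_zero _ ((map_ne_zero_iff _ hj).mpr fun e => hq i ?_))
      rw [rename_inj y (e.trans (map_zero _).symm), map_zero]
    · refine congrArg (algebraMap E Λ) ?_
      induction a using MvPolynomial.induction_on with
      | C b => simp [hιC]
      | add p q hp hq => simp only [map_add, hp, hq]
      | mul_X p c hp =>
        simp only [map_mul, hp, eval_X]
        exact congrArg _ (hx (.inl c))
    · exact (congrArg (algebraMap E Λ) (hx (.inr (1, i, none)))).trans (by simp [rs])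
    · refine (congrArg D (Subtype.ext ?_)).trans (hDE (aa k E c))
      refine Eq.trans ?_ ((hθ _).trans (eval₂Hom_X' _ _ _)).symm
      simp [lam, ι, gen, j]

end Pool.Agent.H.MP_322e80_ag
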