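import Pool.Agent.H.MP_322e80_ag.G

namespace Pool.Agent.H.MP_322e80_ag

open MvPolynomial Cardinal

theorem exists_indep (s : Set ℂ) (hs : s.Finite) (n : Type) [Finite n] :
    ∃ t : n → ℂ, AlgebraicIndependent (Subfield.closure s) t := by
  obtain ⟨b, hb⟩ := exists_isTranscendenceBasis (Subfield.closure s) ℂ
  have : Infinite b := by
    by_contra h
    rw [not_infinite_iff_finite] at h
    have h1 := IsAlgClosed.cardinal_le_max_transcendence_basis' _ hb
    have h2 : #(Subfield.closure s) ≤ ℵ₀ := (Subfield.cardinalMk_closure_le_max s).trans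
      (max_le hs.lt_aleph0.le le_rfl)
    rw [mk_complex] at h1
    exact aleph0_lt_continuum.not_ge (h1.trans (max_le (max_le h2 mk_le_aleph0) le_rfl))
  have := Fintype.ofFinite n
  exact ⟨_, hb.1.comp _ ((Infinite.natEmbedding b).injective.comp
    (Fin.val_injective.comp (Fintype.equivFin n).injective))⟩

theorem good {G I δ : Type} [Group G] [Finite G] [Finite I] [Fintype δ] [DecidableEq δ] [Nonempty δ]
    (H : I → Subgroup G) (ρ : ∀ i, H i →* Matrix δ δ ℂ) (hρ : ∀ i, Function.Injective (ρ i)) :
    Good ℂ H fun i h => ρ i h := by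
  classical
  rcases isEmpty_or_nonempty I with hI | hI
  · refine ⟨MvPolynomial δ ℂ, inferInstance, inferInstance, inferInstance, inferInstance, 1,
      isEmptyElim, isEmptyElim, ?_, ?_, isEmptyElim, isEmptyElim, isEmptyElim, isEmptyElim,
      isEmptyElim⟩
    · simp [MvPolynomial.ringKrullDim_of_isNoetherianRing]
    · simp [MvPolynomial.trdeg_of_isDomain]
  have := Fintype.ofFinite G
  have := Fintype.ofFinite I
  let s : Set ℂ := Set.range fun y : (Σ i, H i) × δ × δ => ρ y.1.1 y.1.2 y.2.1 y.2.2
  let k := Subfield.closure s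
  let r : ∀ i, H i → Matrix δ δ k := fun i h => Matrix.of fun a b =>
    ⟨ρ i h a b, Subfield.subset_closure ⟨⟨⟨i, h⟩, a, b⟩, rfl⟩⟩
  have hr : ∀ i h, k.subtype.mapMatrix (r i h) = ρ i h := fun _ _ => rfl
  have hm : Function.Injective (k.subtype.mapMatrix (m := δ)) :=
    Matrix.map_injective k.subtype.injective
  let ρ' : ∀ i, H i →* Matrix δ δ k := fun i =>
    { toFun := r i
      map_one' := hm (by simp only [hr, map_one])
      map_mul' a b := hm (by simp only [hr, map_mul]) }
  have L := fun i => (exists_loc (ρ' i) (fun a b e => hρ i (congrArg k.subtype.mapMatrix e)) i).some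
  obtain ⟨t, ht⟩ := exists_indep s (Set.finite_range _) (NN G I δ)
  let E := FractionRing (MvPolynomial (NN G I δ) k)
  obtain ⟨θ, hθ⟩ : ∃ θ : E →+* ℂ, ∀ a, θ (algebraMap _ E a) = aeval t a :=
    have ht' : Function.Injective (aeval (R := k) t).toRingHom :=
      algebraicIndependent_iff_injective_aeval.mp ht
    ⟨IsFractionRing.lift ht', IsFractionRing.lift_algebraMap ht'⟩
  let := θ.toAlgebra
  have := main L E (FractionRing (RR k G I δ)) (Λ := ℂ)
    (F := FractionRing (PowerSeries (MvPolynomial δ E)))
  refine (congrArg (Good ℂ H) (funext fun i => funext fun h => Matrix.ext fun a b => ?_)).mp this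
  rw [Matrix.map_apply, Matrix.map_apply,
    IsScalarTower.algebraMap_apply k (MvPolynomial (NN G I δ) k) E]
  exact (hθ _).trans (AlgHom.commutes _ _)

end Pool.Agent.H.MP_322e80_ag
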